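import Pool.Agent.Lib.Pabc9.Height

open Finset Filter Topology

namespace Pool.Agent.Lib.Pabc9

/-- a product over the primes of a number in terms of exponents -/
theorem prod_pow_eq {S : Finset ℕ} {Z : ℕ} (hZ : Z ≠ 0) (hS : Z.primeFactors ⊆ S) :
    ∏ q : {q // q ∈ S}, (q : ℕ) ^ Z.factorization q = Z := by
  rw [Finset.prod_coe_sort S (fun q => q ^ Z.factorization q)]
  conv_rhs => rw [← Nat.prod_factorization_pow_eq_self hZ]
  rw [Finsupp.prod, Nat.support_factorization]
  symm
  apply Finset.prod_subset hS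
  intro q _ hq
  rw [← Nat.support_factorization, Finsupp.notMem_support_iff] at hq
  rw [hq, pow_zero]

theorem sum_log_eq {S : Finset ℕ} {Z : ℕ} (hZ : Z ≠ 0) (hS : Z.primeFactors ⊆ S)
    (hp : ∀ q ∈ S, q.Prime) :
    ∑ q : {q // q ∈ S}, (Z.factorization q : ℝ) * Real.log (q : ℕ) = Real.log Z := by
  conv_rhs => rw [← prod_pow_eq hZ hS]
  rw [Nat.cast_prod, Real.log_prod]
  · apply Finset.sum_congr rfl
    intro q _
    rw [Nat.cast_pow, Real.log_pow]
  · intro q _
    have := (hp q q.2).pos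
    positivity

/-- Theorem E from its version with exponents. -/
theorem thmE_of (C0 : ℝ) (hC0 : 0 ≤ C0)
    (h : ∀ (ι : Type) [Fintype ι] (p : ι → ℕ) (_ : ∀ i, (p i).Prime)
      (_ : Function.Injective p) (e : ι → ℤ) (M : ℕ) (_ : 0 < M)
      (_ : ∀ i, (p i).Coprime M)
      (_ : (M : ℤ) ∣ ((∏ i, p i ^ (e i).toNat : ℕ) : ℤ) - ((∏ i, p i ^ (-e i).toNat : ℕ) : ℤ))
      (_ : ∃ i, e i ≠ 0)
      (_ : ∑ i, |(e i : ℝ)| * Real.log (p i) ≤ 4 * Real.log M),
      ∑ i, |(e i : ℝ)| * Real.log (p i) ≤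
        C0 * (∏ q ∈ M.primeFactors, (q : ℝ)) ^ 2 *
          (∏ i, (30 * Fintype.card ι * Real.log (p i) + 1)) ^ 2 *
          (∑ i, Real.log (p i) + 1) ^ 2) : ThmE := by
  refine ⟨9 * C0 + 32, by linarith, ?_⟩
  intro Z1 Z2 M h1 h2 hcop hne hM hdvd h4
  set S := (Z1 * Z2).primeFactors with hS
  have hS1 : Z1.primeFactors ⊆ S := Nat.primeFactors_mono (Dvd.intro _ rfl) (by positivity)
  have hS2 : Z2.primeFactors ⊆ S := Nat.primeFactors_mono (Dvd.intro_left _ rfl) (by positivity)
  have hSp : ∀ q ∈ S, q.Prime := fun q hq => Nat.prime_of_mem_primeFactors hq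
  -- one of the two exponents vanishes
  have hz : ∀ q, Z1.factorization q = 0 ∨ Z2.factorization q = 0 := by
    intro q
    by_contra hcon
    push Not at hcon
    have a1 : q ∈ Z1.primeFactors := by
      rw [← Nat.support_factorization, Finsupp.mem_support_iff]; exact hcon.1
    have a2 : q ∈ Z2.primeFactors := by
      rw [← Nat.support_factorization, Finsupp.mem_support_iff]; exact hcon.2
    exact Finset.disjoint_left.1 (Nat.Coprime.disjoint_primeFactors hcop) a1 a2
  set e : {q // q ∈ S} → ℤ := fun q => (Z1.factorization q : ℤ) - Z2.factorization q with he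
  have hpos : ∀ q, (e q).toNat = Z1.factorization q := by
    intro q
    rcases hz q with h | h <;> simp only [he] <;> omega
  have hneg : ∀ q, (-e q).toNat = Z2.factorization q := by
    intro q
    rcases hz q with h | h <;> simp only [he] <;> omega
  have habs : ∀ q, |((e q : ℤ) : ℝ)| = (Z1.factorization q : ℝ) + Z2.factorization q := by
    intro q
    simp only [he]
    rcases hz q with h | h
    · rw [h]
      push_cast
      rw [zero_sub, abs_neg, abs_of_nonneg (Nat.cast_nonneg _), zero_add]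
    · rw [h]
      push_cast
      rw [sub_zero, abs_of_nonneg (Nat.cast_nonneg _), add_zero]
  have hsum : ∑ q : {q // q ∈ S}, |((e q : ℤ) : ℝ)| * Real.log (q : ℕ) =
      Real.log Z1 + Real.log Z2 := by
    simp only [habs, add_mul]
    rw [Finset.sum_add_distrib, sum_log_eq h1.ne' hS1 hSp, sum_log_eq h2.ne' hS2 hSp]
  have hcopM : ∀ q : {q // q ∈ S}, (q : ℕ).Coprime M := by
    rintro ⟨q, hq⟩
    have hqp := hSp q hq
    rw [Nat.Prime.coprime_iff_not_dvd hqp]
    intro hqM
    have hqd : (q : ℤ) ∣ (Z1 : ℤ) - Z2 := (Int.natCast_dvd_natCast.2 hqM).trans hdvd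
    have hq12 : q ∣ Z1 * Z2 := Nat.dvd_of_mem_primeFactors hq
    rcases (Nat.Prime.dvd_mul hqp).1 hq12 with h' | h'
    · have : (q : ℤ) ∣ (Z2 : ℤ) := by
        have := dvd_sub (Int.natCast_dvd_natCast.2 h') hqd
        simpa using this
      have h2' := Int.natCast_dvd_natCast.1 this
      exact Nat.not_coprime_of_dvd_of_dvd hqp.one_lt h' h2' hcop
    · have : (q : ℤ) ∣ (Z1 : ℤ) := by
        have := dvd_add hqd (Int.natCast_dvd_natCast.2 h')
        simpa using this
      have h1' := Int.natCast_dvd_natCast.1 this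
      exact Nat.not_coprime_of_dvd_of_dvd hqp.one_lt h1' h' hcop
  have hSne : S.Nonempty := by
    rw [hS, Nat.nonempty_primeFactors]
    by_contra hcon
    have : Z1 * Z2 = 1 := by
      have : 0 < Z1 * Z2 := by positivity
      omega
    have a1 := Nat.eq_one_of_mul_eq_one_right this
    have a2 := Nat.eq_one_of_mul_eq_one_left this
    omega
  have hex : ∃ q, e q ≠ 0 := by
    obtain ⟨q, hq⟩ := hSne
    refine ⟨⟨q, hq⟩, ?_⟩
    intro h0
    have hq12 : q ∣ Z1 * Z2 := Nat.dvd_of_mem_primeFactors hq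
    have hqp := hSp q hq
    simp only [he] at h0
    rcases (Nat.Prime.dvd_mul hqp).1 hq12 with h' | h'
    · have a1 := (hqp.factorization_pos_of_dvd h1.ne' h')
      rcases hz q with h | h <;> omega
    · have a1 := (hqp.factorization_pos_of_dvd h2.ne' h')
      rcases hz q with h | h <;> omega
  have key := h {q // q ∈ S} (fun q => (q : ℕ)) (fun q => hSp q q.2) Subtype.val_injective e M hM
    hcopM (by
      simp only [hpos, hneg]
      rw [prod_pow_eq h1.ne' hS1, prod_pow_eq h2.ne' hS2]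
      exact hdvd) hex (by rw [hsum]; exact h4)
  rw [hsum] at key
  refine key.trans ?_
  -- comparison of the bounds
  have hcard : Fintype.card {q // q ∈ S} = S.card := Fintype.card_coe S
  have hc1 : (1 : ℝ) ≤ S.card := by exact_mod_cast hSne.card_pos
  have hlog : ∀ q ∈ S, 1 / 2 ≤ Real.log (q : ℕ) := by
    intro q hq
    have h2q : (2 : ℝ) ≤ q := by exact_mod_cast (hSp q hq).two_le
    have := Real.log_le_log (by norm_num) h2q
    have := Real.log_two_gt_d9
    linarith
  set C := 9 * C0 + 32 with hC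
  have b1 : ∏ q : {q // q ∈ S}, (30 * (Fintype.card {q // q ∈ S} : ℝ) * Real.log (q : ℕ) + 1) ≤
      (C * S.card) ^ S.card * ∏ q ∈ S, Real.log (q : ℕ) := by
    rw [Finset.prod_coe_sort S (fun q : ℕ =>
      (30 * (Fintype.card {q // q ∈ S} : ℝ) * Real.log (q : ℕ) + 1)), hcard, ← Finset.prod_const,
      ← Finset.prod_mul_distrib]
    apply Finset.prod_le_prod
    · intro q hq
      have := hlog q hq
      positivity
    · intro q hq
      have h5 := hlog q hq
      have h6 : (1 : ℝ) ≤ 2 * Real.log (q : ℕ) * S.card := by nlinarith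
      nlinarith [mul_nonneg hC0 (mul_nonneg (by linarith : (0:ℝ) ≤ (S.card : ℝ))
        (by linarith : (0 : ℝ) ≤ Real.log (q : ℕ)))]
  have b0 : 0 ≤ ∏ q : {q // q ∈ S}, (30 * (Fintype.card {q // q ∈ S} : ℝ) * Real.log (q : ℕ) + 1) := by
    apply Finset.prod_nonneg
    intro q _
    have := hlog q q.2
    positivity
  have b2 : ∑ q : {q // q ∈ S}, Real.log (q : ℕ) + 1 ≤ 3 * ∑ q ∈ S, Real.log (q : ℕ) := by
    rw [Finset.sum_coe_sort S (fun q : ℕ => Real.log (q : ℕ))]
    obtain ⟨q, hq⟩ := hSne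
    have h5 : Real.log (q : ℕ) ≤ ∑ q ∈ S, Real.log (q : ℕ) :=
      Finset.single_le_sum (f := fun q : ℕ => Real.log (q : ℕ))
        (fun i _ => Real.log_natCast_nonneg i) hq
    have := hlog q hq
    linarith
  have b3 : 0 ≤ ∑ q : {q // q ∈ S}, Real.log (q : ℕ) + 1 := by
    have : 0 ≤ ∑ q : {q // q ∈ S}, Real.log (q : ℕ) :=
      Finset.sum_nonneg fun i _ => Real.log_natCast_nonneg i
    linarith
  set L := ∏ q ∈ S, Real.log (q : ℕ) with hL
  set T := ∑ q ∈ S, Real.log (q : ℕ) with hT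
  set P := ∏ q ∈ M.primeFactors, (q : ℝ) with hP
  have hCS : 1 ≤ C * S.card := by nlinarith
  have hL0 : 0 ≤ L := Finset.prod_nonneg fun p _ => Real.log_natCast_nonneg p
  calc C0 * P ^ 2 * (∏ q : {q // q ∈ S}, (30 * (Fintype.card {q // q ∈ S} : ℝ) *
        Real.log (q : ℕ) + 1)) ^ 2 * (∑ q : {q // q ∈ S}, Real.log (q : ℕ) + 1) ^ 2
      ≤ C0 * P ^ 2 * ((C * S.card) ^ S.card * L) ^ 2 * (3 * T) ^ 2 := by
        gcongr
    _ = (9 * C0) * ((C * S.card) ^ (2 * S.card)) * L ^ 2 * T ^ 2 * P ^ 2 := by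
        rw [mul_pow, ← pow_mul, mul_comm S.card 2]
        ring
    _ ≤ C * ((C * S.card) ^ (2 * S.card + 2)) * L ^ 2 * T ^ 2 * P ^ 2 := by
        have h7 : (C * (S.card : ℝ)) ^ (2 * S.card) ≤ (C * S.card) ^ (2 * S.card + 2) :=
          pow_le_pow_right₀ hCS (by omega)
        have h8 : 9 * C0 ≤ C := by linarith
        gcongr

end Pool.Agent.Lib.Pabc9
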