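import Pool.Agent.Lib.AbcE.TheoremE
import Pool.Agent.Lib.Pabc9.FromE

open Finset Filter Topology

namespace Pool.Agent.Lib.Pabc9

open Pool.Agent.AbcE in
/-- Theorem E holds. -/
theorem thmE : ThmE := by
  refine thmE_of (Real.exp 9000) (Real.exp_pos _).le ?_
  intro ι _ p hp hinj e M hM hcop hdvd _ h4
  have h := theoremE p hp hinj e M hM hcop hdvd (by
    simpa using h4)
  rw [Nat.cast_prod] at h
  simpa using h

end Pool.Agent.Lib.Pabc9
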