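import Mathlib

open Finset Filter Topology

namespace Pool.Agent.Lib.Pabc9

/-- `(w+1)! ≤ ∏ p` for a set of `w` integers `≥ 2`. -/
theorem factorial_le_prod : ∀ (w : ℕ) (S : Finset ℕ), S.card = w → (∀ p ∈ S, 2 ≤ p) →
    (w + 1).factorial ≤ ∏ p ∈ S, p := by
  intro w
  induction w with
  | zero =>
    intro S hS _
    rw [Finset.card_eq_zero] at hS
    subst hS
    simp
  | succ w ih =>
    intro S hS hp
    have hne : S.Nonempty := by
      rw [← Finset.card_pos]
      omega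
    set m := S.max' hne with hm
    have hmS : m ∈ S := S.max'_mem hne
    have hsub : S ⊆ Finset.Icc 2 m := fun p hpS => Finset.mem_Icc.2 ⟨hp p hpS, S.le_max' p hpS⟩
    have hcard := Finset.card_le_card hsub
    rw [Nat.card_Icc, hS] at hcard
    have h1 := ih (S.erase m) (by rw [Finset.card_erase_of_mem hmS, hS]; rfl)
      (fun p hpS => hp p (Finset.mem_of_mem_erase hpS))
    rw [← Finset.mul_prod_erase S (fun p => p) hmS, Nat.factorial_succ (w + 1)]
    exact Nat.mul_le_mul (by omega) h1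

theorem pow_card_le (S : Finset ℕ) (hp : ∀ p ∈ S, 2 ≤ p) :
    ((S.card : ℝ) + 1) ^ S.card ≤ Real.exp ((S.card : ℝ) + 1) * ∏ p ∈ S, (p : ℝ) := by
  set w := S.card with hw
  have h1 : ((w + 1).factorial : ℝ) ≤ ∏ p ∈ S, (p : ℝ) := by
    have := factorial_le_prod w S hw.symm hp
    rw [← Nat.cast_prod]
    exact Nat.cast_le.2 this
  have h2 := Real.pow_div_factorial_le_exp ((w : ℝ) + 1) (by positivity) (w + 1)
  have hf : (0 : ℝ) < (w + 1).factorial := by exact_mod_cast Nat.factorial_pos _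
  rw [div_le_iff₀ hf] at h2
  calc ((w : ℝ) + 1) ^ w ≤ ((w : ℝ) + 1) ^ (w + 1) := by
        apply pow_le_pow_right₀ _ (Nat.le_succ w)
        have : (0 : ℝ) ≤ w := Nat.cast_nonneg w
        linarith
    _ ≤ Real.exp ((w : ℝ) + 1) * (w + 1).factorial := h2
    _ ≤ Real.exp ((w : ℝ) + 1) * ∏ p ∈ S, (p : ℝ) :=
        mul_le_mul_of_nonneg_left h1 (Real.exp_pos _).le

/-- products of logarithms over sets of primes are small powers of the product -/
theorem prod_const_log_le (C ε : ℝ) (hC : 1 ≤ C) (hε : 0 < ε) :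
    ∃ K : ℝ, 1 ≤ K ∧ ∀ S : Finset ℕ, (∀ p ∈ S, 2 ≤ p) →
      ∏ p ∈ S, (C * Real.log p) ≤ K * (∏ p ∈ S, (p : ℝ)) ^ ε := by
  have hev : ∀ᶠ x : ℝ in atTop, C * Real.log x ≤ x ^ ε := by
    have h1 := (isLittleO_log_rpow_atTop hε).def (c := 1 / C) (by positivity)
    filter_upwards [h1, eventually_ge_atTop 1] with x hx hx1
    rw [Real.norm_of_nonneg (Real.log_nonneg hx1),
      Real.norm_of_nonneg (Real.rpow_nonneg (by linarith) _)] at hx
    have : C * Real.log x ≤ C * (1 / C * x ^ ε) := mul_le_mul_of_nonneg_left hx (by linarith)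
    rwa [← mul_assoc, mul_one_div_cancel (by linarith), one_mul] at this
  obtain ⟨x0, hx0⟩ := eventually_atTop.1 hev
  set p0 : ℕ := ⌈x0⌉₊ + 1 with hp0
  set L : ℝ := max 1 (C * Real.log p0) with hL
  have hL1 : 1 ≤ L := le_max_left _ _
  refine ⟨L ^ p0, one_le_pow₀ hL1, fun S hS => ?_⟩
  have hfac : ∀ p ∈ S, C * Real.log p ≤ (if p < p0 then L else 1) * (p : ℝ) ^ ε := by
    intro p hp
    have hp2 := hS p hp
    have hp1 : (1 : ℝ) ≤ p := by exact_mod_cast (by omega : 1 ≤ p)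
    have hpe : (1 : ℝ) ≤ (p : ℝ) ^ ε := Real.one_le_rpow hp1 hε.le
    split_ifs with h
    · have h1 : Real.log p ≤ Real.log p0 :=
        Real.log_le_log (by linarith) (by exact_mod_cast h.le)
      calc C * Real.log p ≤ C * Real.log p0 := mul_le_mul_of_nonneg_left h1 (by linarith)
        _ ≤ L := le_max_right _ _
        _ = L * 1 := (mul_one L).symm
        _ ≤ L * (p : ℝ) ^ ε := mul_le_mul_of_nonneg_left hpe (by linarith)
    · rw [one_mul]
      apply hx0
      have h1 : (p0 : ℝ) ≤ p := by exact_mod_cast not_lt.1 h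
      have h2 : x0 ≤ ⌈x0⌉₊ := Nat.le_ceil _
      rw [hp0] at h1
      push_cast at h1
      linarith
  have h0 : ∀ p ∈ S, 0 ≤ C * Real.log p := fun p _ =>
    mul_nonneg (by linarith) (Real.log_natCast_nonneg p)
  calc ∏ p ∈ S, (C * Real.log p)
      ≤ ∏ p ∈ S, ((if p < p0 then L else 1) * (p : ℝ) ^ ε) := Finset.prod_le_prod h0 hfac
    _ = (∏ p ∈ S, (if p < p0 then L else 1)) * (∏ p ∈ S, (p : ℝ)) ^ ε := by
        rw [Finset.prod_mul_distrib, Real.finsetProd_rpow S (fun p => (p : ℝ))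
          (fun p _ => Nat.cast_nonneg p)]
    _ ≤ L ^ p0 * (∏ p ∈ S, (p : ℝ)) ^ ε := by
        apply mul_le_mul_of_nonneg_right _ (Real.rpow_nonneg
          (Finset.prod_nonneg fun p _ => Nat.cast_nonneg p) _)
        rw [Finset.prod_ite, Finset.prod_const, Finset.prod_const_one, mul_one]
        apply pow_le_pow_right₀ hL1
        calc (S.filter (fun p => p < p0)).card ≤ (Finset.range p0).card := by
              apply Finset.card_le_card
              intro p hp
              exact Finset.mem_range.2 (Finset.mem_filter.1 hp).2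
          _ = p0 := Finset.card_range p0

/-- The radical lemma: `∏ C (w+1) log p ≤ K (∏ p)^(1+ε)`, `w` the number of primes. -/
theorem prod_card_log_le (C ε : ℝ) (hC : 1 ≤ C) (hε : 0 < ε) :
    ∃ K : ℝ, 1 ≤ K ∧ ∀ S : Finset ℕ, (∀ p ∈ S, 2 ≤ p) →
      (C * ((S.card : ℝ) + 1)) ^ S.card * ∏ p ∈ S, Real.log p ≤
        K * (∏ p ∈ S, (p : ℝ)) ^ (1 + ε) := by
  obtain ⟨K, hK1, hK⟩ := prod_const_log_le (Real.exp 1 * C) ε
    (by
      have := Real.add_one_le_exp (1 : ℝ)
      nlinarith) hε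
  refine ⟨Real.exp 1 * K, ?_, fun S hS => ?_⟩
  · have := Real.add_one_le_exp (1 : ℝ)
    nlinarith
  have hP1 : 1 ≤ ∏ p ∈ S, (p : ℝ) := by
    have h : 0 < ∏ p ∈ S, p := Finset.prod_pos (fun p hp => by have := hS p hp; omega)
    rw [← Nat.cast_prod]
    exact_mod_cast h
  have hP0 : 0 < ∏ p ∈ S, (p : ℝ) := by linarith
  have hl0 : 0 ≤ ∏ p ∈ S, Real.log p := Finset.prod_nonneg fun p _ => Real.log_natCast_nonneg p
  have h1 := pow_card_le S hS
  have h2 := hK S hS
  rw [Finset.prod_mul_distrib, Finset.prod_const] at h2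
  have e1 : Real.exp ((S.card : ℝ) + 1) = Real.exp 1 ^ S.card * Real.exp 1 := by
    rw [Real.exp_add, ← Real.exp_nat_mul]
    ring_nf
  calc (C * ((S.card : ℝ) + 1)) ^ S.card * ∏ p ∈ S, Real.log p
      = (C ^ S.card * ∏ p ∈ S, Real.log p) * ((S.card : ℝ) + 1) ^ S.card := by
        rw [mul_pow]; ring
    _ ≤ (C ^ S.card * ∏ p ∈ S, Real.log p) * (Real.exp ((S.card : ℝ) + 1) *
        ∏ p ∈ S, (p : ℝ)) := by
        apply mul_le_mul_of_nonneg_left h1
        exact mul_nonneg (pow_nonneg (by linarith) _) hl0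
    _ = Real.exp 1 * ((Real.exp 1 * C) ^ S.card * ∏ p ∈ S, Real.log p) * ∏ p ∈ S, (p : ℝ) := by
        rw [e1, mul_pow]; ring
    _ ≤ Real.exp 1 * (K * (∏ p ∈ S, (p : ℝ)) ^ ε) * ∏ p ∈ S, (p : ℝ) := by
        apply mul_le_mul_of_nonneg_right _ hP0.le
        exact mul_le_mul_of_nonneg_left h2 (Real.exp_pos _).le
    _ = Real.exp 1 * K * (∏ p ∈ S, (p : ℝ)) ^ (1 + ε) := by
        rw [Real.rpow_add hP0, Real.rpow_one]; ring

end Pool.Agent.Lib.Pabc9
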