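import Mathlib
import Pool.Agent.Lib.Pabc1.RMain

open Finset Filter Topology

namespace Pool.Agent.Lib.Pabc9

open Pool.Agent.Lib.Pabc2 Pool.Agent.Lib.Pabc1

/-- Power saving for all triples, from two height bounds: `H1` for all triples and `H2` for triples
whose radical is a prime times a small number. -/
theorem main_pure (A κ η θ : ℝ) (hA : 0 ≤ A) (hκ0 : 0 < κ) (hκ8 : 8 * κ ≤ 1) (hη : 0 < η)
    (hθ0 : 0 ≤ θ) (hθ : 6 * κ + θ ≤ 1)
    (H1 : ∀ᶠ n : ℕ in atTop, ∀ t : ℕ × ℕ, IsT t → rd t ≤ n → ht t ≤ (n : ℝ) ^ A)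
    (H2 : ∀ᶠ n : ℕ in atTop, ∀ t : ℕ × ℕ, IsT t → rd t ≤ n → ∀ R ∈ (N t).primeFactors,
      ((∏ p ∈ (N t).primeFactors.erase R, p : ℕ) : ℝ) ≤ (n : ℝ) ^ (5 * κ) →
      ht t ≤ (n : ℝ) ^ θ) :
    ∀ᶠ n : ℕ in atTop, ∀ T : Finset (ℕ × ℕ), (∀ t ∈ T, IsT t ∧ rd t ≤ n) →
      2 * (T.card : ℝ) ≤ (n : ℝ) ^ (1 - κ + η) := by
  classical
  obtain ⟨C1, hC1⟩ := count_light 1 A (by norm_num) le_rfl hA
  obtain ⟨C3, hC3⟩ := count_light (1 / 4) A (by norm_num) (by norm_num) hA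
  obtain ⟨C4, hC4⟩ := count_two_free A hA
  obtain ⟨K, hK, hC5⟩ := count_root θ (5 * κ) (η / 2) hθ0 (by positivity)
  have hq := main_quasi 3 (1 / 40) (by norm_num) (by norm_num)
  have hlim : Tendsto (fun n : ℕ => Real.log (n : ℝ)) atTop atTop :=
    Real.tendsto_log_atTop.comp tendsto_natCast_atTop_atTop
  have hfl : Tendsto (fun n : ℕ => ⌊(n : ℝ) ^ (1 - κ)⌋₊) atTop atTop :=
    tendsto_nat_floor_atTop.comp ((tendsto_rpow_atTop (by linarith)).comp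
      tendsto_natCast_atTop_atTop)
  filter_upwards [hlim.eventually (eventually_ge_atTop 100),
    hlim.eventually (eventually_gt_atTop (40 * (K + 1))),
    hfl.eventually hC1, hfl.eventually H1, H1, H2, hC3, hC4, hC5, hq,
    ev_log_pow_le 1 |C1| (η / 2) (by positivity), ev_log_pow_le 1 C3 (η / 2) (by positivity),
    ev_log_pow_le 1 C4 (η / 2) (by positivity), ev_log_pow_le 6 0 (η / 2) (by positivity),
    eventually_ge_atTop 1] with n hx100 hxK h1 g1 g2 g3 h3 h4 h5 h2 e1 e3 e4 e6 hn1 T hT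
  rw [one_mul] at e1 e3 e4
  rw [Real.rpow_zero, mul_one] at e6
  set x := Real.log (n : ℝ) with hx
  have hx0 : 0 < x := by linarith
  have hn0 : (0 : ℝ) < n := by exact_mod_cast hn1
  have hn1' : (1 : ℝ) ≤ n := by exact_mod_cast hn1
  have hpos : ∀ a : ℝ, 0 < (n : ℝ) ^ a := fun a => Real.rpow_pos_of_pos hn0 a
  set E : ℝ := (n : ℝ) ^ (1 - κ) with hE
  have hE0 : 0 < E := hpos _
  set F : ℝ := (n : ℝ) ^ (η / 2) with hF
  have hF0 : 0 < F := hpos _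
  -- the five classes
  set T1 := T.filter (fun t => (rd t : ℝ) ≤ E) with hT1
  set T2 := T.filter (fun t => ht t ≤ x ^ (3 : ℝ)) with hT2
  set T3 := T.filter (fun t => ∃ Q ⊆ (N t).primeFactors, (n : ℝ) ^ κ ≤ ((∏ p ∈ Q, p : ℕ) : ℝ) ∧
      ∑ p ∈ Q, u t p ≤ 1 - 1 / 4) with hT3
  set T4 := T.filter (fun t => ∃ Q ∈ (N t).primeFactors, ∃ R ∈ (N t).primeFactors,
      lab t Q ≠ lab t R ∧ (n : ℝ) ^ (2 * κ) ≤ Q ∧ (n : ℝ) ^ (2 * κ) ≤ R) with hT4
  set T5 := T.filter (fun t => 100 ≤ ht t ∧ ∃ R ∈ (N t).primeFactors,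
      ((∏ p ∈ (N t).primeFactors.erase R, p : ℕ) : ℝ) ≤ (n : ℝ) ^ (5 * κ) ∧
      20 * ⌈K * x⌉₊ ≤ ex t R) with hT5
  have hcover : T ⊆ T1 ∪ (T2 ∪ (T3 ∪ (T4 ∪ T5))) := by
    intro t ht'
    obtain ⟨hI, hrd⟩ := hT t ht'
    simp only [Finset.mem_union, hT1, hT2, hT3, hT4, hT5, Finset.mem_filter, ht', true_and]
    by_cases c1 : (rd t : ℝ) ≤ E
    · left; exact c1
    right
    by_cases c2 : ht t ≤ x ^ (3 : ℝ)
    · left; exact c2
    right
    by_cases c3 : ∃ Q ⊆ (N t).primeFactors, (n : ℝ) ^ κ ≤ ((∏ p ∈ Q, p : ℕ) : ℝ) ∧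
      ∑ p ∈ Q, u t p ≤ 1 - 1 / 4
    · left; exact c3
    right
    by_cases c4 : ∃ Q ∈ (N t).primeFactors, ∃ R ∈ (N t).primeFactors,
      lab t Q ≠ lab t R ∧ (n : ℝ) ^ (2 * κ) ≤ Q ∧ (n : ℝ) ^ (2 * κ) ≤ R
    · left; exact c4
    right
    push Not at c1 c2
    refine ⟨?_, cover n κ hκ0 hκ8 K hK hx100 hxK t hI hrd c1 c2 c3 c4⟩
    have h7 : x ^ (3 : ℝ) = x * x * x := by
      rw [show (3 : ℝ) = ((3 : ℕ) : ℝ) by norm_num, Real.rpow_natCast]
      ring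
    rw [h7] at c2
    nlinarith
  have hcard : (T.card : ℝ) ≤ T1.card + (T2.card + (T3.card + (T4.card + T5.card))) := by
    have a1 := Finset.card_le_card hcover
    have a2 := Finset.card_union_le T1 (T2 ∪ (T3 ∪ (T4 ∪ T5)))
    have a3 := Finset.card_union_le T2 (T3 ∪ (T4 ∪ T5))
    have a4 := Finset.card_union_le T3 (T4 ∪ T5)
    have a5 := Finset.card_union_le T4 T5
    exact_mod_cast (by omega : T.card ≤ T1.card + (T2.card + (T3.card + (T4.card + T5.card))))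
  have hmem1 : ∀ t ∈ T1, t ∈ T ∧ (rd t : ℝ) ≤ E := fun t h => Finset.mem_filter.mp h
  have hmem2 : ∀ t ∈ T2, t ∈ T ∧ ht t ≤ x ^ (3 : ℝ) := fun t h => Finset.mem_filter.mp h
  have hmem3 := fun t (h : t ∈ T3) => Finset.mem_filter.mp h
  have hmem4 := fun t (h : t ∈ T4) => Finset.mem_filter.mp h
  have hmem5 := fun t (h : t ∈ T5) => Finset.mem_filter.mp h
  -- class 1
  have b1 : 2 * (T1.card : ℝ) ≤ E * F := by
    set m := ⌊E⌋₊ with hm
    have hEbig : (n : ℝ) ^ (3 / 4 : ℝ) ≤ E := by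
      rw [hE]
      apply Real.rpow_le_rpow_of_exponent_le hn1'
      linarith
    have hn4 : (2 : ℝ) ≤ (n : ℝ) ^ (1 / 8 : ℝ) := by
      rw [← Real.log_le_log_iff (by norm_num) (hpos _), Real.log_rpow hn0]
      have := Real.log_two_lt_d9
      linarith
    have hE1 : 1 ≤ E := Real.one_le_rpow hn1' (by linarith)
    have hmE : E ≤ 2 * m := by
      have := Nat.lt_floor_add_one E
      have h7 : 1 ≤ m := by rw [hm]; exact Nat.le_floor (by push_cast; exact hE1)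
      have h8 : (1 : ℝ) ≤ m := by exact_mod_cast h7
      linarith
    have hm0 : (0 : ℝ) < m := by linarith
    have hmle : (m : ℝ) ≤ E := Nat.floor_le hE0.le
    have key := h1 1 le_rfl T1 (by
      intro t ht'
      obtain ⟨hmT, hle⟩ := hmem1 t ht'
      obtain ⟨hI, hrd⟩ := hT t hmT
      have hrm : rd t ≤ ⌊(n : ℝ) ^ (1 - κ)⌋₊ := Nat.le_floor hle
      refine ⟨hI, hrm, g1 t hI hrm, ∅, Finset.empty_subset _, ?_, ?_⟩
      · simp
      · simp)
    rw [div_one] at key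
    refine key.trans ?_
    have hlogm : Real.log (m : ℝ) ≤ x := by
      apply Real.log_le_log hm0
      refine hmle.trans ?_
      rw [hE]
      calc (n : ℝ) ^ (1 - κ) ≤ (n : ℝ) ^ (1 : ℝ) :=
            Real.rpow_le_rpow_of_exponent_le hn1' (by linarith)
        _ = n := Real.rpow_one _
    have hlogm1 : 1 ≤ Real.log (m : ℝ) := by
      have h8 : (n : ℝ) ^ (1 / 8 : ℝ) ≤ m := by
        have h9 : (n : ℝ) ^ (1 / 8 : ℝ) * 2 ≤ (n : ℝ) ^ (3 / 4 : ℝ) := by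
          calc (n : ℝ) ^ (1 / 8 : ℝ) * 2 ≤ (n : ℝ) ^ (5 / 8 : ℝ) * (n : ℝ) ^ (1 / 8 : ℝ) := by
                have := Real.rpow_le_rpow_of_exponent_le hn1' (show (1 / 8 : ℝ) ≤ 5 / 8 by norm_num)
                have := (hpos (1 / 8 : ℝ)).le
                gcongr
            _ = (n : ℝ) ^ (3 / 4 : ℝ) := by rw [← Real.rpow_add hn0]; norm_num
        linarith
      have h9 : Real.log ((n : ℝ) ^ (1 / 8 : ℝ)) ≤ Real.log m := Real.log_le_log (hpos _) h8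
      rw [Real.log_rpow hn0] at h9
      linarith
    calc (m : ℝ) * Real.log m ^ C1 ≤ E * Real.log m ^ |C1| := by
          have : Real.log (m : ℝ) ^ C1 ≤ Real.log m ^ |C1| :=
            Real.rpow_le_rpow_of_exponent_le hlogm1 (le_abs_self _)
          have h0 : 0 ≤ Real.log (m : ℝ) ^ C1 := Real.rpow_nonneg (by linarith) _
          gcongr
      _ ≤ E * x ^ |C1| := by
          have : Real.log (m : ℝ) ^ |C1| ≤ x ^ |C1| :=
            Real.rpow_le_rpow (by linarith) hlogm (abs_nonneg _)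
          gcongr
      _ ≤ E * F := by gcongr
  -- class 2
  have b2 : 2 * (T2.card : ℝ) ≤ E := by
    refine (h2 T2 (fun t ht' => ?_)).trans ?_
    · obtain ⟨hmT, hle⟩ := hmem2 t ht'
      exact ⟨(hT t hmT).1, (hT t hmT).2, hle⟩
    · rw [hE]
      apply Real.rpow_le_rpow_of_exponent_le hn1'
      norm_num
      linarith
  have hEdiv : (n : ℝ) / (n : ℝ) ^ κ = E := by
    rw [hE, Real.rpow_sub hn0, Real.rpow_one]
  -- class 3
  have b3 : 2 * (T3.card : ℝ) ≤ E * F := by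
    have key := h3 ((n : ℝ) ^ κ) (Real.one_le_rpow hn1' hκ0.le) T3 (by
      intro t ht'
      obtain ⟨hmT, hQ⟩ := hmem3 t ht'
      obtain ⟨hI, hrd⟩ := hT t hmT
      exact ⟨hI, hrd, g2 t hI hrd, hQ⟩)
    rw [hEdiv] at key
    exact key.trans (mul_le_mul_of_nonneg_left e3 hE0.le)
  -- class 4
  have b4 : 2 * (T4.card : ℝ) ≤ E * F := by
    have key := h4 ((n : ℝ) ^ (2 * κ)) (Real.one_le_rpow hn1' (by positivity)) T4 (by
      intro t ht'
      obtain ⟨hmT, hQ⟩ := hmem4 t ht'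
      obtain ⟨hI, hrd⟩ := hT t hmT
      exact ⟨hI, hrd, g2 t hI hrd, hQ⟩)
    have hs : Real.sqrt ((n : ℝ) ^ (2 * κ)) = (n : ℝ) ^ κ := by
      rw [Real.sqrt_eq_rpow, ← Real.rpow_mul hn0.le]
      congr 1
      ring
    rw [hs, hEdiv] at key
    exact key.trans (mul_le_mul_of_nonneg_left e4 hE0.le)
  -- class 5
  have b5 : (T5.card : ℝ) ≤ E * F := by
    have key := h5 T5 (by
      intro t ht'
      obtain ⟨hmT, hb, R, hR1, hR2, hR3⟩ := hmem5 t ht'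
      obtain ⟨hI, hrd⟩ := hT t hmT
      exact ⟨hI, hrd, g3 t hI hrd R hR1 hR2, hb, R, hR1, hR2, hR3⟩)
    refine key.trans ?_
    rw [hE, hF, ← Real.rpow_add hn0]
    apply Real.rpow_le_rpow_of_exponent_le hn1'
    linarith
  have hF1 : 1 ≤ F := Real.one_le_rpow hn1' (by positivity)
  have hEF : E ≤ E * F := by nlinarith
  have hfin : (n : ℝ) ^ (1 - κ + η) = E * F * F := by
    rw [hE, hF, ← Real.rpow_add hn0, ← Real.rpow_add hn0]
    congr 1
    ring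
  have hEF0 : 0 ≤ E * F := by positivity
  rw [hfin]
  calc 2 * (T.card : ℝ) ≤ 6 * (E * F) := by linarith
    _ ≤ F * (E * F) := mul_le_mul_of_nonneg_right e6 hEF0
    _ = E * F * F := by ring

end Pool.Agent.Lib.Pabc9
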