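import Pool.Agent.Lib.Pabc9.Core
import Pool.Agent.Lib.Pabc9.Pure

open Finset Filter Topology

namespace Pool.Agent.Lib.Pabc9

open Pool.Agent.Lib.Pabc2 Pool.Agent.Lib.Pabc1

/-- The height bound (Theorem E). -/
def ThmE : Prop := ∃ C : ℝ, 1 ≤ C ∧ ∀ Z1 Z2 M : ℕ, 0 < Z1 → 0 < Z2 → Nat.Coprime Z1 Z2 →
  Z1 ≠ Z2 → 0 < M → (M : ℤ) ∣ (Z1 : ℤ) - Z2 → Real.log Z1 + Real.log Z2 ≤ 4 * Real.log M →
  Real.log Z1 + Real.log Z2 ≤
    C * (C * (Z1 * Z2).primeFactors.card) ^ (2 * (Z1 * Z2).primeFactors.card + 2) *
      (∏ p ∈ (Z1 * Z2).primeFactors, Real.log p) ^ 2 *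
      (∑ p ∈ (Z1 * Z2).primeFactors, Real.log p) ^ 2 *
      (∏ p ∈ M.primeFactors, (p : ℝ)) ^ 2

/-- The height of a triple is at most the square of its radical without one prime. -/
theorem height (hE : ThmE) (ε : ℝ) (hε : 0 < ε) :
    ∀ᶠ n : ℕ in atTop, ∀ t : ℕ × ℕ, IsT t → rd t ≤ n → ∀ R ∈ (N t).primeFactors,
      ht t ≤ (∏ p ∈ (N t).primeFactors.erase R, (p : ℝ)) ^ 2 * (n : ℝ) ^ ε := by
  obtain ⟨C, hC, hE⟩ := hE
  filter_upwards [core C ε hC hε, eventually_ge_atTop 1] with n hn hn1
  rintro ⟨a, b⟩ ⟨ha, hab, hcop⟩ hrd R hR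
  simp only at ha hab hcop
  have hb : 0 < b := lt_of_lt_of_le ha hab
  have hn1' : (1 : ℝ) ≤ n := by exact_mod_cast hn1
  have hN : N (a, b) = a * b * (a + b) := rfl
  have hN0 : a * b * (a + b) ≠ 0 := by positivity
  have hht : ht (a, b) = Real.log ((a + b : ℕ) : ℝ) := by
    unfold ht
    push_cast
    rfl
  -- products over sets of primes are at least one
  have hge : 1 ≤ (∏ p ∈ (N (a, b)).primeFactors.erase R, (p : ℝ)) ^ 2 * (n : ℝ) ^ ε := by
    have h1 : 1 ≤ ∏ p ∈ (N (a, b)).primeFactors.erase R, (p : ℝ) := by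
      have h : 0 < ∏ p ∈ (N (a, b)).primeFactors.erase R, p := Finset.prod_pos (fun p hp =>
        (Nat.prime_of_mem_primeFactors (Finset.mem_of_mem_erase hp)).pos)
      rw [← Nat.cast_prod]
      exact_mod_cast h
    exact one_le_mul_of_one_le_of_one_le (one_le_pow₀ h1) (Real.one_le_rpow hn1' hε.le)
  rcases Nat.lt_or_ge b 2 with hb2 | hb2
  · -- the triple (1, 1, 2)
    have hb1 : b = 1 := by omega
    have ha1 : a = 1 := by omega
    subst hb1 ha1
    refine le_trans ?_ hge
    rw [hht]
    have := Real.log_two_lt_d9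
    push_cast
    linarith
  have hlt : a < b := by
    rcases Nat.lt_or_ge a b with h | h
    · exact h
    · exfalso
      have : a = b := le_antisymm hab h
      rw [this, Nat.coprime_self] at hcop
      omega
  have hac : Nat.Coprime a (a + b) := by
    rw [Nat.coprime_self_add_right]
    exact hcop
  have hbc : Nat.Coprime b (a + b) := by
    rw [Nat.coprime_add_self_right]
    exact hcop.symm
  have ha0 : (0 : ℝ) < a := by exact_mod_cast ha
  have hb0 : (0 : ℝ) < b := by exact_mod_cast hb
  have hb2' : (2 : ℝ) ≤ b := by exact_mod_cast hb2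
  have hlab : Real.log a ≤ Real.log b := Real.log_le_log ha0 (by exact_mod_cast hab)
  have hl2 : Real.log 2 ≤ Real.log b := Real.log_le_log (by norm_num) hb2'
  have hlc : Real.log ((a + b : ℕ) : ℝ) ≤ Real.log 2 + Real.log b := by
    rw [← Real.log_mul (by norm_num) hb0.ne']
    apply Real.log_le_log
    · push_cast
      linarith
    · have : (a : ℝ) ≤ b := by exact_mod_cast hab
      push_cast
      linarith
  have hla : 0 ≤ Real.log (a : ℝ) := Real.log_natCast_nonneg a
  have hlbc : Real.log b ≤ Real.log ((a + b : ℕ) : ℝ) := by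
    apply Real.log_le_log hb0
    push_cast
    linarith
  -- the primes
  have hrd' : ((rd (a, b) : ℕ) : ℝ) ≤ n := by exact_mod_cast hrd
  by_cases hRb : R ∈ b.primeFactors
  · -- modulus `c`
    have hRc : R ∉ (a + b).primeFactors := fun h =>
      Finset.disjoint_left.1 (Nat.Coprime.disjoint_primeFactors hbc) hRb h
    have key := hE (b ^ 2) (a ^ 2) (a + b) (by positivity) (by positivity)
      (Nat.Coprime.pow 2 2 hcop.symm) (by
        intro h
        have := Nat.pow_left_injective (n := 2) (by norm_num) h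
        omega) (by positivity) (by
        refine ⟨(b : ℤ) - a, ?_⟩
        push_cast
        ring) (by
        push_cast
        rw [Real.log_pow, Real.log_pow]
        push_cast at hlbc ⊢
        linarith)
    have hS : (b ^ 2 * a ^ 2).primeFactors = b.primeFactors ∪ a.primeFactors := by
      rw [Nat.primeFactors_mul (by positivity) (by positivity), Nat.primeFactors_pow _ two_ne_zero,
        Nat.primeFactors_pow _ two_ne_zero]
    have hU : (N (a, b)).primeFactors = (b ^ 2 * a ^ 2).primeFactors ∪ (a + b).primeFactors := by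
      rw [hN, Nat.primeFactors_mul (by positivity) (by positivity),
        Nat.primeFactors_mul (by positivity) (by positivity), hS, Finset.union_comm b.primeFactors]
    have hdis : Disjoint (b ^ 2 * a ^ 2).primeFactors (a + b).primeFactors := by
      rw [hS, Finset.disjoint_union_left]
      exact ⟨Nat.Coprime.disjoint_primeFactors hbc, Nat.Coprime.disjoint_primeFactors hac⟩
    have h2 := hn (b ^ 2 * a ^ 2).primeFactors (a + b).primeFactors (by
      intro p hp
      rw [← hU] at hp
      exact (Nat.prime_of_mem_primeFactors hp).two_le) hdis (by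
      rw [← hU]
      exact hrd') R hRc
    rw [← hU] at h2
    refine le_trans ?_ (key.trans h2)
    rw [hht]
    push_cast
    rw [Real.log_pow, Real.log_pow]
    push_cast at hlc ⊢
    linarith
  · -- modulus `b`
    have key := hE (a + b) a b (by positivity) ha hac.symm (by omega) hb (by
        refine ⟨1, ?_⟩
        push_cast
        ring) (by linarith)
    have hS : ((a + b) * a).primeFactors = (a + b).primeFactors ∪ a.primeFactors :=
      Nat.primeFactors_mul (by positivity) (by positivity)
    have hU : (N (a, b)).primeFactors = ((a + b) * a).primeFactors ∪ b.primeFactors := by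
      rw [hN, Nat.primeFactors_mul (by positivity) (by positivity),
        Nat.primeFactors_mul (by positivity) (by positivity), hS]
      ext p
      simp only [Finset.mem_union]
      tauto
    have hdis : Disjoint ((a + b) * a).primeFactors b.primeFactors := by
      rw [hS, Finset.disjoint_union_left]
      exact ⟨Nat.Coprime.disjoint_primeFactors hbc.symm, Nat.Coprime.disjoint_primeFactors hcop⟩
    have h2 := hn ((a + b) * a).primeFactors b.primeFactors (by
      intro p hp
      rw [← hU] at hp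
      exact (Nat.prime_of_mem_primeFactors hp).two_le) hdis (by
      rw [← hU]
      exact hrd') R hRb
    rw [← hU] at h2
    refine le_trans ?_ (key.trans h2)
    rw [hht]
    linarith

/-- The radical of a triple is at least two. -/
theorem exists_prime {t : ℕ × ℕ} (hI : IsT t) : ∃ R, R ∈ (N t).primeFactors := by
  obtain ⟨a, b⟩ := t
  have h1 : 0 < a := hI.1
  have h2 : 0 < b := hI.pos2
  have h3 : 2 ∣ N (a, b) := by
    have : N (a, b) = a * b * (a + b) := rfl
    rw [this]
    rcases Nat.even_or_odd a with h | h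
    · exact ((even_iff_two_dvd.1 h).mul_right b).mul_right _
    · rcases Nat.even_or_odd b with h' | h'
      · exact ((even_iff_two_dvd.1 h').mul_left a).mul_right _
      · exact (even_iff_two_dvd.1 (h.add_odd h')).mul_left _
  have h4 : N (a, b) ≠ 0 := by
    have : N (a, b) = a * b * (a + b) := rfl
    rw [this]
    positivity
  exact ⟨2, Nat.mem_primeFactors.2 ⟨Nat.prime_two, h3, h4⟩⟩

/-- Power saving for all triples. -/
theorem main_all (hE : ThmE) (η : ℝ) (hη : 0 < η) :
    ∀ᶠ n : ℕ in atTop, ∀ T : Finset (ℕ × ℕ), (∀ t ∈ T, IsT t ∧ rd t ≤ n) →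
      2 * (T.card : ℝ) ≤ (n : ℝ) ^ (1 - 1 / 16 + η) := by
  -- we may shrink `η`
  suffices h : ∀ η : ℝ, 0 < η → η ≤ 1 / 100 → ∀ᶠ n : ℕ in atTop, ∀ T : Finset (ℕ × ℕ),
      (∀ t ∈ T, IsT t ∧ rd t ≤ n) → 2 * (T.card : ℝ) ≤ (n : ℝ) ^ (1 - 1 / 16 + η) by
    filter_upwards [h (min η (1 / 100)) (lt_min hη (by norm_num)) (min_le_right _ _),
      eventually_ge_atTop 1] with n hn hn1 T hT
    refine (hn T hT).trans ?_
    apply Real.rpow_le_rpow_of_exponent_le (by exact_mod_cast hn1)
    have := min_le_left η (1 / 100)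
    linarith
  clear hη η
  intro η hη hη1
  set κ : ℝ := 1 / 16 - η / 2 with hκ
  have hκ0 : 0 < κ := by rw [hκ]; linarith
  have H := height hE (η / 2) (by positivity)
  have Hs := height hE 1 one_pos
  have := main_pure 3 κ (η / 2) (10 * κ + η / 2) (by norm_num) hκ0 (by rw [hκ]; linarith)
    (by positivity) (by positivity) (by rw [hκ]; linarith) (by
      filter_upwards [Hs, eventually_ge_atTop 1] with n hn hn1 t hI hrd
      obtain ⟨R, hR⟩ := exists_prime hI
      have hn0 : (0 : ℝ) < n := by exact_mod_cast hn1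
      refine (hn t hI hrd R hR).trans ?_
      have h1 : ∏ p ∈ (N t).primeFactors.erase R, (p : ℝ) ≤ n := by
        rw [← Nat.cast_prod]
        have h2 : ∏ p ∈ (N t).primeFactors.erase R, p ≤ rd t :=
          Finset.prod_le_prod_of_subset_of_one_le' (Finset.erase_subset _ _) (fun p h _ =>
            (Nat.prime_of_mem_primeFactors h).one_lt.le)
        exact_mod_cast h2.trans hrd
      have h3 : 0 ≤ ∏ p ∈ (N t).primeFactors.erase R, (p : ℝ) :=
        Finset.prod_nonneg fun p _ => Nat.cast_nonneg p
      rw [Real.rpow_one, show (3 : ℝ) = ((3 : ℕ) : ℝ) by norm_num, Real.rpow_natCast]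
      calc (∏ p ∈ (N t).primeFactors.erase R, (p : ℝ)) ^ 2 * (n : ℝ) ≤ (n : ℝ) ^ 2 * n := by
            gcongr
        _ = (n : ℝ) ^ 3 := by ring) (by
      filter_upwards [H, eventually_ge_atTop 1] with n hn hn1 t hI hrd R hR hs
      have hn0 : (0 : ℝ) < n := by exact_mod_cast hn1
      refine (hn t hI hrd R hR).trans ?_
      rw [Nat.cast_prod] at hs
      have h3 : 0 ≤ ∏ p ∈ (N t).primeFactors.erase R, (p : ℝ) :=
        Finset.prod_nonneg fun p _ => Nat.cast_nonneg p
      have h4 := Real.rpow_nonneg hn0.le (η / 2)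
      calc (∏ p ∈ (N t).primeFactors.erase R, (p : ℝ)) ^ 2 * (n : ℝ) ^ (η / 2)
          ≤ ((n : ℝ) ^ (5 * κ)) ^ 2 * (n : ℝ) ^ (η / 2) := by gcongr
        _ = (n : ℝ) ^ (10 * κ + η / 2) := by
            rw [← Real.rpow_natCast, ← Real.rpow_mul hn0.le, ← Real.rpow_add hn0]
            congr 1
            push_cast
            ring)
  filter_upwards [this] with n hn T hT
  refine (hn T hT).trans (le_of_eq ?_)
  congr 1
  rw [hκ]
  ring

end Pool.Agent.Lib.Pabc9
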