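import Mathlib
import Pool.Agent.Lib.Pabc1.Root
import Pool.Agent.Lib.AbcE.Core

open Finset

namespace Pool.Agent.Lib.Pabc9

open Pool.Agent.Lib.Pabc1

variable {ι : Type*}

theorem prod_rel_A2 (X : Finset ℕ) (R : ι → ℕ) (v : ι → ℕ → ℕ) (e : ι → ℕ) (g : ℕ)
    (I : Finset ι) (hge : ∀ i ∈ I, g ≤ e i) :
    ∏ i ∈ I, (R i ^ e i * ∏ p ∈ X, p ^ v i p) =
      (∏ i ∈ I, R i ^ (e i - g)) * (rA X R v g I ^ g * rU X v g I) := by
  rw [← prod_rel_A, ← Finset.prod_mul_distrib]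
  apply Finset.prod_congr rfl
  intro i hi
  have h1 : R i ^ e i = R i ^ (e i - g) * R i ^ g := by
    rw [← pow_add, Nat.sub_add_cancel (hge i hi)]
  rw [h1]
  ring

/-- The pigeonhole step with nearly equal exponents. -/
theorem root_lemma2 [DecidableEq ι] (T : Finset ι) (X Z : Finset ℕ)
    (hX : ∀ p ∈ X, p.Prime) (hZ : ∀ p ∈ Z, p.Prime)
    (R : ι → ℕ) (hR : ∀ i ∈ T, (R i).Prime) (hRinj : Set.InjOn R T)
    (hRX : ∀ i ∈ T, R i ∉ X) (hRZ : ∀ i ∈ T, R i ∉ Z)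
    (M : ℕ) (hMX : ∀ p ∈ X, p.Coprime M) (hMZ : ∀ p ∈ Z, p.Coprime M)
    (hMR : ∀ i ∈ T, (R i).Coprime M)
    (v : ι → ℕ → ℕ) (e : ι → ℕ) (g : ℕ) (hg : 0 < g) (hge : ∀ i ∈ T, g ≤ e i)
    (σ : ℤ) (hσ : σ * σ = 1)
    (hdiv : ∀ i ∈ T, (M : ℤ) ∣ ((R i ^ e i * ∏ p ∈ X, p ^ v i p : ℕ) : ℤ) -
      σ * ((∏ p ∈ Z, p ^ v i p : ℕ) : ℤ))
    (Q : ℕ) (hQ : 0 < Q)
    (ℓ : ℕ) (hcard : g ^ (X ∪ Z).card * Q ^ 2 < T.card.choose ℓ) :
    ∃ I ⊆ T, ∃ J ⊆ T, I.card = ℓ ∧ J.card = ℓ ∧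
      (M : ℤ) ∣ ((∏ i ∈ I, R i ^ (e i - g) : ℕ) : ℤ) *
          ((rA X R v g I * rB Z v g J : ℕ) : ℤ) ^ g -
        ((∏ i ∈ J, R i ^ (e i - g) : ℕ) : ℤ) * ((rA X R v g J * rB Z v g I : ℕ) : ℤ) ^ g ∧
      (Q : ℤ) ∣ ((rA X R v g I * rB Z v g J : ℕ) : ℤ) - ((rA X R v g J * rB Z v g I : ℕ) : ℤ) ∧
      (rA X R v g I * rB Z v g J).Coprime M ∧
      rA X R v g I * rB Z v g J ≠ rA X R v g J * rB Z v g I := by
  classical
  -- pigeonhole
  set W := X ∪ Z with hW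
  set f : Finset ι → ((p : ℕ) → p ∈ W → ℕ) × ℕ × ℕ := fun I =>
    (fun p _ => (∑ i ∈ I, v i p) % g, rA X R v g I % Q, rB Z v g I % Q) with hf
  set tgt : Finset (((p : ℕ) → p ∈ W → ℕ) × ℕ × ℕ) :=
    (W.pi (fun _ => Finset.range g)) ×ˢ (Finset.range Q ×ˢ Finset.range Q) with htgt
  have hcardtgt : tgt.card = g ^ W.card * Q ^ 2 := by
    rw [htgt, Finset.card_product, Finset.card_product, Finset.card_pi, Finset.card_range]
    simp only [Finset.card_range, Finset.prod_const]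
    ring
  have hlt : tgt.card < (T.powersetCard ℓ).card := by
    rw [hcardtgt, Finset.card_powersetCard]
    exact hcard
  have hmaps : ∀ I ∈ T.powersetCard ℓ, f I ∈ tgt := by
    intro I _
    rw [htgt, Finset.mem_product, Finset.mem_product, Finset.mem_pi]
    refine ⟨fun p _ => ?_, ?_, ?_⟩
    · rw [Finset.mem_range]; exact Nat.mod_lt _ hg
    · rw [Finset.mem_range]; exact Nat.mod_lt _ hQ
    · rw [Finset.mem_range]; exact Nat.mod_lt _ hQ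
  obtain ⟨I, hI, J, hJ, hne, hfe⟩ := Finset.exists_ne_map_eq_of_card_lt_of_maps_to hlt hmaps
  rw [Finset.mem_powersetCard] at hI hJ
  simp only [hf, Prod.mk.injEq] at hfe
  obtain ⟨he, hA, hB⟩ := hfe
  have hmod : ∀ p ∈ W, (∑ i ∈ I, v i p) % g = (∑ i ∈ J, v i p) % g := fun p hp =>
    congrFun (congrFun he p) hp
  have hUX : rU X v g I = rU X v g J := by
    unfold rU
    apply Finset.prod_congr rfl
    intro p hp
    rw [hmod p (Finset.mem_union_left _ hp)]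
  have hUZ : rU Z v g I = rU Z v g J := by
    unfold rU
    apply Finset.prod_congr rfl
    intro p hp
    rw [hmod p (Finset.mem_union_right _ hp)]
  -- coprimality
  have cU : ∀ Y : Finset ℕ, (∀ p ∈ Y, p.Coprime M) → ∀ K : Finset ι, (rU Y v g K).Coprime M := by
    intro Y hY K
    unfold rU
    exact Nat.Coprime.prod_left (fun p hp => Nat.Coprime.pow_left _ (hY p hp))
  have cB : ∀ K : Finset ι, (rB Z v g K).Coprime M := by
    intro K
    unfold rB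
    exact Nat.Coprime.prod_left (fun p hp => Nat.Coprime.pow_left _ (hMZ p hp))
  have cA : ∀ K ⊆ T, (rA X R v g K).Coprime M := by
    intro K hK
    unfold rA
    refine Nat.Coprime.mul_left (Nat.Coprime.prod_left (fun i hi => hMR i (hK hi))) ?_
    exact Nat.Coprime.prod_left (fun p hp => Nat.Coprime.pow_left _ (hMX p hp))
  -- the product relation
  have hrel : ∀ K ⊆ T, K.card = ℓ →
      (M : ℤ) ∣ (((∏ i ∈ K, R i ^ (e i - g)) * (rA X R v g K ^ g * rU X v g K) : ℕ) : ℤ) -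
        σ ^ ℓ * ((rB Z v g K ^ g * rU Z v g K : ℕ) : ℤ) := by
    intro K hK hKc
    rw [← prod_rel_A2 X R v e g K (fun i hi => hge i (hK hi)), ← prod_rel_B]
    have h1 : ∀ i ∈ K, ((R i ^ e i * ∏ p ∈ X, p ^ v i p : ℕ) : ℤ) ≡
        σ * ((∏ p ∈ Z, p ^ v i p : ℕ) : ℤ) [ZMOD (M : ℤ)] := by
      intro i hi
      exact (Int.modEq_iff_dvd.mpr (hdiv i (hK hi))).symm
    have h2 := Int.ModEq.prod h1
    rw [Finset.prod_mul_distrib, Finset.prod_const, hKc] at h2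
    have h3 := Int.modEq_iff_dvd.mp h2.symm
    push_cast at h3 ⊢
    exact h3
  have r1 := hrel I hI.1 hI.2
  have r2 := hrel J hJ.1 hJ.2
  rw [← hUX, ← hUZ] at r2
  set AI := rA X R v g I with hAI
  set AJ := rA X R v g J with hAJ
  set BI := rB Z v g I with hBI
  set BJ := rB Z v g J with hBJ
  set U := rU X v g I with hU
  set V := rU Z v g I with hV
  set PI := ∏ i ∈ I, R i ^ (e i - g) with hPI
  set PJ := ∏ i ∈ J, R i ^ (e i - g) with hPJ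
  have hs : (σ ^ ℓ) * (σ ^ ℓ) = 1 := by
    rw [← mul_pow, hσ, one_pow]
  have r3 : (M : ℤ) ∣ ((U * V : ℕ) : ℤ) *
      ((PI : ℤ) * ((AI * BJ : ℕ) : ℤ) ^ g - (PJ : ℤ) * ((AJ * BI : ℕ) : ℤ) ^ g) := by
    have e : ((U * V : ℕ) : ℤ) *
        ((PI : ℤ) * ((AI * BJ : ℕ) : ℤ) ^ g - (PJ : ℤ) * ((AJ * BI : ℕ) : ℤ) ^ g) =
        (((PI * (AI ^ g * U) : ℕ) : ℤ) - σ ^ ℓ * ((BI ^ g * V : ℕ) : ℤ)) *
          ((BJ ^ g * V : ℕ) : ℤ) -
        (((PJ * (AJ ^ g * U) : ℕ) : ℤ) - σ ^ ℓ * ((BJ ^ g * V : ℕ) : ℤ)) *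
          ((BI ^ g * V : ℕ) : ℤ) := by
      push_cast
      ring
    rw [e]
    exact dvd_sub (Dvd.dvd.mul_right r1 _) (Dvd.dvd.mul_right r2 _)
  have r4 : (M : ℤ) ∣ (PI : ℤ) * ((AI * BJ : ℕ) : ℤ) ^ g -
      (PJ : ℤ) * ((AJ * BI : ℕ) : ℤ) ^ g := by
    have hc : IsCoprime (M : ℤ) ((U * V : ℕ) : ℤ) := by
      rw [Nat.isCoprime_iff_coprime]
      exact (Nat.Coprime.mul_left (cU X hMX I) (cU Z hMZ I)).symm
    exact hc.dvd_of_dvd_mul_left r3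
  refine ⟨I, hI.1, J, hJ.1, hI.2, hJ.2, r4, ?_, ?_, ?_⟩
  · have hA' : AI ≡ AJ [MOD Q] := hA
    have hB' : BI ≡ BJ [MOD Q] := hB
    have h1 : AI * BJ ≡ AJ * BI [MOD Q] := Nat.ModEq.mul hA' hB'.symm
    exact (Nat.modEq_iff_dvd.mp h1.symm)
  · exact Nat.Coprime.mul_left (cA I hI.1) (cB J)
  · -- distinctness
    intro heq
    apply hne
    -- if I ≠ J find an element in the symmetric difference
    have hsub : ∀ K ⊆ T, ∀ L ⊆ T, rA X R v g K * rB Z v g L = rA X R v g L * rB Z v g K → K ⊆ L := by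
      intro K hK L hL h i hi
      have hp := hR i (hK hi)
      have h1 : R i ∣ rA X R v g K := by
        unfold rA
        exact Dvd.dvd.mul_right (Finset.dvd_prod_of_mem R hi) _
      have h2 : R i ∣ rA X R v g L * rB Z v g K := h ▸ Dvd.dvd.mul_right h1 _
      have hnot : ∀ Y : Finset ℕ, (∀ p ∈ Y, p.Prime) → R i ∉ Y → ∀ m : ℕ → ℕ,
          ¬ R i ∣ ∏ p ∈ Y, p ^ m p := by
        intro Y hY hiY m hd
        obtain ⟨q, hq, hqd⟩ := (hp.prime.dvd_finsetProd_iff _).mp hd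
        have := (Nat.prime_dvd_prime_iff_eq hp (hY q hq)).mp (hp.dvd_of_dvd_pow hqd)
        rw [this] at hiY
        exact hiY hq
      rcases hp.dvd_mul.mp h2 with h3 | h3
      · unfold rA at h3
        rcases hp.dvd_mul.mp h3 with h4 | h4
        · obtain ⟨j, hj, hjd⟩ := (hp.prime.dvd_finsetProd_iff _).mp h4
          have h5 := (Nat.prime_dvd_prime_iff_eq hp (hR j (hL hj))).mp hjd
          have h6 := hRinj (hK hi) (hL hj) h5
          rw [h6]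
          exact hj
        · exact absurd h4 (hnot X hX (hRX i (hK hi)) _)
      · exact absurd h3 (hnot Z hZ (hRZ i (hK hi)) _)
    exact Finset.Subset.antisymm (hsub I hI.1 J hJ.1 heq) (hsub J hJ.1 I hI.1 heq.symm)

end Pool.Agent.Lib.Pabc9
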