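import Mathlib
import Pool.Agent.Lib.Pabc9.RootA
import Pool.Agent.Lib.AbcE.TheoremE

open Finset

namespace Pool.Agent.Lib.Pabc9

open Pool.Agent.Lib.Pabc1

/-- The choice of the parameters of the transcendental core. -/
theorem size_aux (r D d N ℓ : ℕ) (m h κ LB LA : ℝ) (hκ : 1 ≤ κ) (hℓ : 1 ≤ ℓ)
    (hhm : h ≤ κ * m) (hrh : 120 * κ * r ≤ h) (hrℓ : 3200 * κ * ℓ ≤ r)
    (hD : D = ⌊(r : ℝ) / (40 * (κ * ℓ))⌋₊) (hN : N = ⌊m / (1200 * (κ * ℓ))⌋₊)
    (hd : d = 4 * N / (D + 1))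
    (hLB : LB ≤ 2 * ℓ * h / r) (hLA : LA ≤ 3 / 10 * r) :
    2 * Real.log (((D + 1) * (d + 1) : ℕ) : ℝ) + ((D + d * r : ℕ) : ℝ) * Real.log 4 +
        ((5 * D : ℕ) : ℝ) * LB + ((5 * d : ℕ) : ℝ) * LA < m ∧
      (d + 1) * D < 5 * (N - d) ∧ 2 * (2 * N) ≤ (D + 1) * (d + 1) ∧ D < r ∧ 0 < N ∧
      m ≤ 1300 * κ * ℓ * N := by
  have hℓ1 : (1 : ℝ) ≤ ℓ := by exact_mod_cast hℓ
  set c : ℝ := κ * ℓ with hc
  have hc1 : 1 ≤ c := by
    rw [hc]
    nlinarith
  have hc0 : 0 < c := by linarith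
  have hκ0 : 0 < κ := by linarith
  have hrc : 3200 * c ≤ r := by
    rw [hc]
    linarith
  have hr0 : (0 : ℝ) < r := by linarith
  have hmr : 120 * (r : ℝ) ≤ m := by
    have h1 : κ * (120 * (r : ℝ)) ≤ κ * m := by linarith
    exact le_of_mul_le_mul_left h1 hκ0
  have hm0 : 0 < m := by linarith
  have hmc : 384000 * c ≤ m := by linarith
  have hD1 : 40 * c * D ≤ r := by
    have h1 : (D : ℝ) ≤ r / (40 * c) := by
      rw [hD]
      exact Nat.floor_le (by positivity)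
    rw [le_div_iff₀ (by positivity)] at h1
    linarith
  have hD2 : (r : ℝ) < 40 * c * (D + 1) := by
    have h1 : (r : ℝ) / (40 * c) < D + 1 := by
      rw [hD]
      exact Nat.lt_floor_add_one _
    rw [div_lt_iff₀ (by positivity)] at h1
    linarith
  have hN1 : 1200 * c * N ≤ m := by
    have h1 : (N : ℝ) ≤ m / (1200 * c) := by
      rw [hN]
      exact Nat.floor_le (by positivity)
    rw [le_div_iff₀ (by positivity)] at h1
    linarith
  have hN2 : m < 1200 * c * (N + 1) := by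
    have h1 : m / (1200 * c) < N + 1 := by
      rw [hN]
      exact Nat.lt_floor_add_one _
    rw [div_lt_iff₀ (by positivity)] at h1
    linarith
  have hd1 : d * (D + 1) ≤ 4 * N := by
    rw [hd]
    exact Nat.div_mul_le_self _ _
  have hd2 : 4 * N < (d + 1) * (D + 1) := by
    rw [hd]
    have := Nat.lt_div_mul_add (a := 4 * N) (b := D + 1) (by omega)
    linarith [this]
  have hd1' : (d : ℝ) * (D + 1) ≤ 4 * N := by exact_mod_cast hd1
  have hD0 : (0 : ℝ) ≤ D := Nat.cast_nonneg D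
  have hd0 : (0 : ℝ) ≤ d := Nat.cast_nonneg d
  have hN0 : (0 : ℝ) ≤ N := Nat.cast_nonneg N
  have hdr : (d : ℝ) * r ≤ 2 / 15 * m := by
    have h1 : (d : ℝ) * r ≤ d * (40 * c * (D + 1)) := mul_le_mul_of_nonneg_left hD2.le hd0
    have h2 : (d : ℝ) * (40 * c * (D + 1)) = 40 * c * (d * (D + 1)) := by ring
    have h3 : 40 * c * ((d : ℝ) * (D + 1)) ≤ 40 * c * (4 * N) :=
      mul_le_mul_of_nonneg_left hd1' (by positivity)
    linarith
  have hcD : 4800 * (c * D) ≤ m := by linarith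
  have hcd : 24000 * (c * d) ≤ m := by
    have h1 : 3200 * c * d ≤ r * d := mul_le_mul_of_nonneg_right hrc hd0
    linarith
  have hDm : 4800 * (D : ℝ) ≤ m := by
    have : (D : ℝ) ≤ c * D := by nlinarith
    linarith
  have hdm : 24000 * (d : ℝ) ≤ m := by
    have : (d : ℝ) ≤ c * d := by nlinarith
    linarith
  have hNm : 1200 * (N : ℝ) ≤ m := by
    have : (N : ℝ) ≤ c * N := by nlinarith
    linarith
  have hkey : (D : ℝ) + 5 * d + 1 < N := by
    have h1 : 0 < 4800 * c * ((N : ℝ) - (D + 5 * d + 1)) := by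
      have e : 4800 * c * ((N : ℝ) - (D + 5 * d + 1)) =
          4 * (1200 * c * (N + 1)) - 4800 * (c * D) - 24000 * (c * d) - 9600 * c := by ring
      rw [e]
      linarith
    have h2 : 0 < (N : ℝ) - (D + 5 * d + 1) := by
      by_contra hcon
      push Not at hcon
      have : 4800 * c * ((N : ℝ) - (D + 5 * d + 1)) ≤ 0 :=
        mul_nonpos_of_nonneg_of_nonpos (by positivity) hcon
      linarith
    linarith
  have hkey' : D + 5 * d + 1 < N := by exact_mod_cast hkey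
  refine ⟨?_, ?_, ?_, ?_, by omega, ?_⟩
  · -- sizes
    have hlog4 : Real.log 4 ≤ 1.3863 := by
      have h1 : Real.log 4 = 2 * Real.log 2 := by
        rw [show (4 : ℝ) = 2 ^ 2 by norm_num, Real.log_pow]
        norm_num
      have := Real.log_two_lt_d9
      linarith
    have hlog40 : 0 ≤ Real.log 4 := Real.log_nonneg (by norm_num)
    have s1 : ((D + d * r : ℕ) : ℝ) * Real.log 4 ≤ 19 / 100 * m := by
      push_cast
      have h1 : (D : ℝ) + d * r ≤ m / 4800 + 2 / 15 * m := by linarith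
      have h2 : ((D : ℝ) + d * r) * Real.log 4 ≤ (m / 4800 + 2 / 15 * m) * 1.3863 :=
        mul_le_mul h1 hlog4 hlog40 (by positivity)
      refine h2.trans ?_
      have : (m / 4800 + 2 / 15 * m) * 1.3863 = (1 / 4800 + 2 / 15) * 1.3863 * m := by ring
      rw [this]
      apply mul_le_mul_of_nonneg_right _ hm0.le
      norm_num
    have s2 : ((5 * D : ℕ) : ℝ) * LB ≤ 1 / 4 * m := by
      push_cast
      have h1 : 5 * (D : ℝ) * LB ≤ 5 * D * (2 * ℓ * h / r) :=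
        mul_le_mul_of_nonneg_left hLB (by positivity)
      refine h1.trans ?_
      have h2 : 5 * (D : ℝ) * (2 * ℓ * h / r) = 10 * D * ℓ * h / r := by ring
      rw [h2, div_le_iff₀ hr0]
      have h3 : 10 * (D : ℝ) * ℓ * h ≤ 10 * D * ℓ * (κ * m) :=
        mul_le_mul_of_nonneg_left hhm (by positivity)
      refine h3.trans ?_
      have h4 : 10 * (D : ℝ) * ℓ * (κ * m) = 1 / 4 * m * (40 * c * D) := by
        rw [hc]
        ring
      rw [h4]
      exact mul_le_mul_of_nonneg_left hD1 (by positivity)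
    have s3 : ((5 * d : ℕ) : ℝ) * LA ≤ 1 / 5 * m := by
      push_cast
      have h1 : 5 * (d : ℝ) * LA ≤ 5 * d * (3 / 10 * r) :=
        mul_le_mul_of_nonneg_left hLA (by positivity)
      linarith
    have s4 : 2 * Real.log (((D + 1) * (d + 1) : ℕ) : ℝ) ≤ 1 / 10 * m := by
      have h1 : (((D + 1) * (d + 1) : ℕ) : ℝ) ≤ m := by
        push_cast
        have : ((D : ℝ) + 1) * (d + 1) = d * (D + 1) + D + 1 := by ring
        rw [this]
        linarith
      have h2 : Real.log (((D + 1) * (d + 1) : ℕ) : ℝ) ≤ Real.log m :=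
        Real.log_le_log (by positivity) h1
      have h3 : Real.log m = Real.log (m / 1000) + Real.log 1000 := by
        rw [← Real.log_mul (by positivity) (by norm_num)]
        congr 1
        ring
      have h4 := Real.log_le_sub_one_of_pos (show 0 < m / 1000 by positivity)
      have h5 := Real.log_le_sub_one_of_pos (show (0 : ℝ) < 1000 by norm_num)
      linarith
    linarith
  · have h1 : (d + 1) * D ≤ 4 * N + D := by nlinarith
    have h2 : 4 * N + D < 5 * (N - d) := by omega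
    omega
  · have : (D + 1) * (d + 1) = (d + 1) * (D + 1) := by ring
    omega
  · have h1 : (D : ℝ) < r := by nlinarith
    exact_mod_cast h1
  · have e : 1300 * κ * ℓ * (N : ℝ) = 1300 * c * N := by rw [hc]; ring
    rw [e]
    linarith

variable {ι : Type*}

/-- Root extraction with nearly equal exponents: as `Pabc1.root_bound`, but the exponents `e i`
of the special primes only satisfy `r ≤ e i` and `ℓ (e i - r) log (R i) ≤ 3 r / 10`. -/
theorem root_bound2 [DecidableEq ι] (T : Finset ι) (X Z : Finset ℕ)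
    (hX : ∀ p ∈ X, p.Prime) (hZ : ∀ p ∈ Z, p.Prime)
    (R : ι → ℕ) (hR : ∀ i ∈ T, (R i).Prime) (hRinj : Set.InjOn R T)
    (hRX : ∀ i ∈ T, R i ∉ X) (hRZ : ∀ i ∈ T, R i ∉ Z)
    (M : ℕ) (hMX : ∀ p ∈ X, p.Coprime M) (hMZ : ∀ p ∈ Z, p.Coprime M)
    (hMR : ∀ i ∈ T, (R i).Coprime M)
    (v : ι → ℕ → ℕ) (e : ι → ℕ) (r : ℕ) (hre : ∀ i ∈ T, r ≤ e i) (σ : ℤ) (hσ : σ * σ = 1)
    (hdiv : ∀ i ∈ T, (M : ℤ) ∣ ((R i ^ e i * ∏ p ∈ X, p ^ v i p : ℕ) : ℤ) -
      σ * ((∏ p ∈ Z, p ^ v i p : ℕ) : ℤ))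
    (ℓ : ℕ) (hℓ : 1 ≤ ℓ) (h κ : ℝ) (hκ : 1 ≤ κ)
    (hA : ∀ i ∈ T, (e i : ℝ) * Real.log (R i) + ∑ p ∈ X, (v i p : ℝ) * Real.log p ≤ h)
    (hB : ∀ i ∈ T, ∑ p ∈ Z, (v i p : ℝ) * Real.log p ≤ h)
    (hM : h ≤ κ * Real.log M)
    (hrℓ : 3200 * κ * ℓ ≤ r) (hRbig : ∀ i ∈ T, 120 * κ ≤ Real.log (R i))
    (hw : ∀ i ∈ T, ℓ * (((e i : ℝ) - r) * Real.log (R i)) ≤ 3 / 10 * r) :
    (T.card.choose ℓ : ℝ) ≤ (r : ℝ) ^ (X ∪ Z).card *
      (Real.exp (1300 * κ * ℓ) * ((∏ p ∈ M.primeFactors, p : ℕ) : ℝ)) ^ 2 := by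
  classical
  by_contra hcon
  push Not at hcon
  have hℓ1 : (1 : ℝ) ≤ ℓ := by exact_mod_cast hℓ
  have hκ0 : 0 < κ := by linarith
  have hr0 : (0 : ℝ) < r := by
    have : 0 < 3200 * κ * ℓ := by positivity
    linarith
  have hr : 0 < r := by exact_mod_cast hr0
  rcases T.eq_empty_or_nonempty with hTe | hTne
  · rw [hTe, Finset.card_empty, Nat.choose_eq_zero_of_lt (by omega)] at hcon
    simp only [Nat.cast_zero] at hcon
    have : 0 ≤ (r : ℝ) ^ (X ∪ Z).card *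
      (Real.exp (1300 * κ * ℓ) * ((∏ p ∈ M.primeFactors, p : ℕ) : ℝ)) ^ 2 := by positivity
    linarith
  obtain ⟨t0, ht0⟩ := hTne
  have hrh : 120 * κ * r ≤ h := by
    have h1 := hA t0 ht0
    have h2 : 0 ≤ ∑ p ∈ X, (v t0 p : ℝ) * Real.log p :=
      Finset.sum_nonneg fun p _ => mul_nonneg (Nat.cast_nonneg _) (Real.log_natCast_nonneg p)
    have h3 : (r : ℝ) ≤ e t0 := by exact_mod_cast hre t0 ht0
    have h4 : (r : ℝ) * (120 * κ) ≤ e t0 * Real.log (R t0) :=
      mul_le_mul h3 (hRbig t0 ht0) (by positivity) (by positivity)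
    linarith
  set m := Real.log M with hm
  obtain ⟨D, hD⟩ : ∃ D : ℕ, D = ⌊(r : ℝ) / (40 * (κ * ℓ))⌋₊ := ⟨_, rfl⟩
  obtain ⟨N, hN⟩ : ∃ N : ℕ, N = ⌊m / (1200 * (κ * ℓ))⌋₊ := ⟨_, rfl⟩
  obtain ⟨d, hd⟩ : ∃ d : ℕ, d = 4 * N / (D + 1) := ⟨_, rfl⟩
  have hmpos : 0 < m := by
    have h1 : 0 < κ * m := by
      have : 0 < 120 * κ * r := by positivity
      linarith
    exact pos_of_mul_pos_right h1 hκ0.le
  have hMpos : 0 < M := by
    rcases Nat.eq_zero_or_pos M with h0 | h0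
    · rw [hm, h0] at hmpos
      simp at hmpos
    · exact h0
  have hMR0 : (0 : ℝ) < M := by exact_mod_cast hMpos
  obtain ⟨-, -, -, -, hNpos, hNm⟩ := size_aux r D d N ℓ m h κ 0 0 hκ hℓ hM hrh hrℓ hD hN hd
    (by
      have : 0 ≤ h := by
        have : 0 < 120 * κ * r := by positivity
        linarith
      positivity) (by positivity)
  obtain ⟨M0, hM0, hMM0, hM0le, -⟩ := Pool.Agent.AbcE.exists_M0 M N hMpos hNpos
  set P : ℕ := ∏ p ∈ M.primeFactors, p with hP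
  have hPpos : 0 < P := Finset.prod_pos fun q hq => (Nat.prime_of_mem_primeFactors hq).pos
  have hPR : (0 : ℝ) < P := by exact_mod_cast hPpos
  have hM0R : (0 : ℝ) < M0 := by exact_mod_cast hM0
  have hNR : (0 : ℝ) < N := by exact_mod_cast hNpos
  have hM0e : (M0 : ℝ) ≤ Real.exp (1300 * κ * ℓ) * P := by
    rw [← Real.log_le_log_iff hM0R (by positivity), Real.log_mul (Real.exp_pos _).ne' hPR.ne',
      Real.log_exp]
    have h1 : ((M0 : ℝ)) ^ N ≤ M * (P : ℝ) ^ N := by exact_mod_cast hM0le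
    have h2 := Real.log_le_log (by positivity) h1
    rw [Real.log_pow, Real.log_mul hMR0.ne' (by positivity), Real.log_pow, ← hm] at h2
    have h3 : (N : ℝ) * Real.log M0 ≤ N * (1300 * κ * ℓ + Real.log P) := by linarith
    exact le_of_mul_le_mul_left h3 hNR
  have hcard : r ^ (X ∪ Z).card * M0 ^ 2 < T.card.choose ℓ := by
    have h1 : (r : ℝ) ^ (X ∪ Z).card * (M0 : ℝ) ^ 2 < T.card.choose ℓ := by
      refine lt_of_le_of_lt ?_ hcon
      gcongr
    exact_mod_cast h1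
  obtain ⟨I, hI, J, hJ, hIc, hJc, hdvd, hQ, hcop, hne⟩ := root_lemma2 T X Z hX hZ R hR hRinj hRX
    hRZ M hMX hMZ hMR v e r hr hre σ hσ hdiv M0 hM0 ℓ hcard
  -- sizes
  have hlogdiv : ∀ (Y : Finset ℕ), (∀ p ∈ Y, p.Prime) → ∀ K : Finset ι,
      Real.log ((∏ p ∈ Y, p ^ ((∑ i ∈ K, v i p) / r) : ℕ) : ℝ) ≤
        (∑ i ∈ K, ∑ p ∈ Y, (v i p : ℝ) * Real.log p) / r := by
    intro Y hY K
    push_cast
    rw [Real.log_prod (fun p hp => by
      have : (0 : ℝ) < p := by exact_mod_cast (hY p hp).pos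
      positivity), Finset.sum_comm, Finset.sum_div]
    apply Finset.sum_le_sum
    intro p hp
    rw [Real.log_pow, ← Finset.sum_mul, mul_div_right_comm]
    have h1 : (((∑ i ∈ K, v i p) / r : ℕ) : ℝ) ≤ ((∑ i ∈ K, v i p : ℕ) : ℝ) / r :=
      Nat.cast_div_le
    push_cast at h1 ⊢
    exact mul_le_mul_of_nonneg_right h1 (Real.log_natCast_nonneg p)
  have hposprod : ∀ (Y : Finset ℕ), (∀ p ∈ Y, p.Prime) → ∀ m : ℕ → ℕ,
      0 < (∏ p ∈ Y, p ^ m p) := by
    intro Y hY m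
    exact Finset.prod_pos (fun p hp => pow_pos (hY p hp).pos _)
  have hRpos : ∀ K ⊆ T, 0 < ∏ i ∈ K, R i := fun K hK =>
    Finset.prod_pos (fun i hi => (hR i (hK hi)).pos)
  have hlogA : ∀ K ⊆ T, K.card = ℓ → Real.log (rA X R v r K) ≤ ℓ * h / r := by
    intro K hK hKc
    unfold rA
    rw [Nat.cast_mul, Real.log_mul (by exact_mod_cast (hRpos K hK).ne')
      (by exact_mod_cast (hposprod X hX _).ne')]
    have h1 := hlogdiv X hX K
    have h2 : Real.log ((∏ i ∈ K, R i : ℕ) : ℝ) ≤ (∑ i ∈ K, (e i : ℝ) * Real.log (R i)) / r := by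
      push_cast
      rw [Real.log_prod (fun i hi => by exact_mod_cast (hR i (hK hi)).ne_zero),
        le_div_iff₀ hr0, Finset.sum_mul]
      apply Finset.sum_le_sum
      intro i hi
      have h3 : (r : ℝ) ≤ e i := by exact_mod_cast hre i (hK hi)
      have h4 := Real.log_natCast_nonneg (R i)
      nlinarith
    have h3 : (∑ i ∈ K, (e i : ℝ) * Real.log (R i)) / r +
        (∑ i ∈ K, ∑ p ∈ X, (v i p : ℝ) * Real.log p) / r ≤ ℓ * h / r := by
      rw [← add_div, ← Finset.sum_add_distrib]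
      apply div_le_div_of_nonneg_right _ hr0.le
      calc ∑ i ∈ K, ((e i : ℝ) * Real.log (R i) + ∑ p ∈ X, (v i p : ℝ) * Real.log p) ≤
            ∑ _i ∈ K, h := Finset.sum_le_sum (fun i hi => hA i (hK hi))
        _ = ℓ * h := by rw [Finset.sum_const, hKc, nsmul_eq_mul]
    linarith
  have hlogB : ∀ K ⊆ T, K.card = ℓ → Real.log (rB Z v r K) ≤ ℓ * h / r := by
    intro K hK hKc
    unfold rB
    refine (hlogdiv Z hZ K).trans ?_
    apply div_le_div_of_nonneg_right _ hr0.le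
    calc ∑ i ∈ K, (∑ p ∈ Z, (v i p : ℝ) * Real.log p) ≤ ∑ _i ∈ K, h :=
          Finset.sum_le_sum (fun i hi => hB i (hK hi))
      _ = ℓ * h := by rw [Finset.sum_const, hKc, nsmul_eq_mul]
  have hApos : ∀ K ⊆ T, 0 < rA X R v r K := by
    intro K hK
    unfold rA
    exact Nat.mul_pos (hRpos K hK) (hposprod X hX _)
  have hBpos : ∀ K ⊆ T, 0 < rB Z v r K := by
    intro K hK
    unfold rB
    exact hposprod Z hZ _
  have hAB : ∀ K ⊆ T, ∀ L ⊆ T, K.card = ℓ → L.card = ℓ →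
      Real.log ((rA X R v r K * rB Z v r L : ℕ) : ℝ) ≤ 2 * ℓ * h / r := by
    intro K hK L hL hKc hLc
    rw [Nat.cast_mul, Real.log_mul (by exact_mod_cast (hApos K hK).ne')
      (by exact_mod_cast (hBpos L hL).ne')]
    have h1 := hlogA K hK hKc
    have h2 := hlogB L hL hLc
    have h3 : 2 * (ℓ : ℝ) * h / r = ℓ * h / r + ℓ * h / r := by ring
    linarith
  have hPIpos : ∀ K ⊆ T, 0 < ∏ i ∈ K, R i ^ (e i - r) := fun K hK =>
    Finset.prod_pos (fun i hi => pow_pos (hR i (hK hi)).pos _)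
  have hPI : ∀ K ⊆ T, K.card = ℓ →
      Real.log ((∏ i ∈ K, R i ^ (e i - r) : ℕ) : ℝ) ≤ 3 / 10 * r := by
    intro K hK hKc
    push_cast
    rw [Real.log_prod (fun i hi => by
      have : (0 : ℝ) < R i := by exact_mod_cast (hR i (hK hi)).pos
      positivity)]
    have h1 : ∑ i ∈ K, Real.log ((R i : ℝ) ^ (e i - r)) ≤ ∑ _i ∈ K, (3 / 10 * r / ℓ : ℝ) := by
      apply Finset.sum_le_sum
      intro i hi
      rw [Real.log_pow, Nat.cast_sub (hre i (hK hi)), le_div_iff₀ (by linarith)]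
      have := hw i (hK hi)
      linarith
    refine h1.trans ?_
    rw [Finset.sum_const, hKc, nsmul_eq_mul]
    apply le_of_eq
    field_simp
  set B1 := rA X R v r I * rB Z v r J with hB1
  set B2 := rA X R v r J * rB Z v r I with hB2
  set A1 := ∏ i ∈ I, R i ^ (e i - r) with hA1
  set A2 := ∏ i ∈ J, R i ^ (e i - r) with hA2
  have hB1pos : 0 < B1 := Nat.mul_pos (hApos I hI) (hBpos J hJ)
  have hB2pos : 0 < B2 := Nat.mul_pos (hApos J hJ) (hBpos I hI)
  have hA1pos : 0 < A1 := hPIpos I hI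
  have hA2pos : 0 < A2 := hPIpos J hJ
  have hLB : Real.log ((max B1 B2 : ℕ) : ℝ) ≤ 2 * ℓ * h / r := by
    rcases le_total B1 B2 with hle | hle
    · rw [max_eq_right hle]
      exact hAB J hJ I hI hJc hIc
    · rw [max_eq_left hle]
      exact hAB I hI J hJ hIc hJc
  have hLA : Real.log ((max A1 A2 : ℕ) : ℝ) ≤ 3 / 10 * r := by
    rcases le_total A1 A2 with hle | hle
    · rw [max_eq_right hle]
      exact hPI J hJ hJc
    · rw [max_eq_left hle]
      exact hPI I hI hIc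
  obtain ⟨hsize, hzero, hSieg, hDr, -, -⟩ := size_aux r D d N ℓ m h κ _ _ hκ hℓ hM hrh hrℓ hD hN
    hd hLB hLA
  have hMA : Nat.Coprime M A2 := by
    rw [hA2]
    exact (Nat.Coprime.prod_left (fun i hi => Nat.Coprime.pow_left _ (hMR i (hJ hi)))).symm
  have hmB : (0 : ℝ) < ((max B1 B2 : ℕ) : ℝ) := by
    exact_mod_cast lt_of_lt_of_le hB1pos (le_max_left _ _)
  have hmA : (0 : ℝ) < ((max A1 A2 : ℕ) : ℝ) := by
    exact_mod_cast lt_of_lt_of_le hA1pos (le_max_left _ _)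
  refine Pool.Agent.AbcE.core r D d N 5 M M0 B1 B2 A1 A2 hB1pos hB2pos hA1pos hA2pos hDr hSieg
    hMM0 hQ hne hdvd hcop.symm hMA ?_ hzero
  have hlt : ((((D + 1) * (d + 1)) ^ 2 * 4 ^ (D + d * r) * (max B1 B2) ^ (5 * D) *
      (max A1 A2) ^ (5 * d) : ℕ) : ℝ) < M := by
    have hpos1 : (0 : ℝ) < (((D + 1) * (d + 1) : ℕ) : ℝ) := by positivity
    rw [← Real.log_lt_log_iff (by
      rw [Nat.cast_mul, Nat.cast_mul, Nat.cast_mul, Nat.cast_pow, Nat.cast_pow, Nat.cast_pow,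
        Nat.cast_pow]
      positivity) hMR0]
    rw [Nat.cast_mul, Nat.cast_mul, Nat.cast_mul, Nat.cast_pow, Nat.cast_pow, Nat.cast_pow,
      Nat.cast_pow, Real.log_mul (by positivity) (by positivity),
      Real.log_mul (by positivity) (by positivity), Real.log_mul (by positivity) (by positivity),
      Real.log_pow, Real.log_pow, Real.log_pow, Real.log_pow, ← hm]
    push_cast at hsize ⊢
    linarith
  exact_mod_cast hlt

end Pool.Agent.Lib.Pabc9
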