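import Pool.Agent.Lib.Pabc9.RadLemma

open Finset Filter Topology

namespace Pool.Agent.Lib.Pabc9

theorem ev_poly_log (D : ℝ) (k : ℕ) (ε : ℝ) (hε : 0 < ε) :
    ∀ᶠ n : ℕ in atTop, D * (1 + Real.log n) ^ k ≤ (n : ℝ) ^ ε := by
  have h1 : ∀ᶠ x : ℝ in atTop, (|D| + 1) * 2 ^ k * Real.log x ^ (k : ℝ) ≤ x ^ ε := by
    have h2 := (isLittleO_log_rpow_rpow_atTop (k : ℝ) hε).def
      (c := 1 / ((|D| + 1) * 2 ^ k)) (by positivity)
    filter_upwards [h2, eventually_ge_atTop 1] with x hx hx1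
    have hl : 0 ≤ Real.log x := Real.log_nonneg hx1
    rw [Real.norm_of_nonneg (Real.rpow_nonneg hl _),
      Real.norm_of_nonneg (Real.rpow_nonneg (by linarith) _)] at hx
    have hpos : 0 < (|D| + 1) * 2 ^ k := by positivity
    have : (|D| + 1) * 2 ^ k * Real.log x ^ (k : ℝ) ≤
        (|D| + 1) * 2 ^ k * (1 / ((|D| + 1) * 2 ^ k) * x ^ ε) :=
      mul_le_mul_of_nonneg_left hx hpos.le
    rwa [← mul_assoc, mul_one_div_cancel hpos.ne', one_mul] at this
  have h3 := (tendsto_natCast_atTop_atTop (R := ℝ)).eventually h1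
  have h4 := (Real.tendsto_log_atTop.comp (tendsto_natCast_atTop_atTop (R := ℝ))).eventually
    (eventually_ge_atTop 1)
  filter_upwards [h3, h4] with n hn hl
  simp only [Function.comp_apply] at hl
  refine le_trans ?_ hn
  rw [Real.rpow_natCast]
  have h5 : (1 + Real.log (n : ℝ)) ^ k ≤ 2 ^ k * Real.log (n : ℝ) ^ k := by
    rw [← mul_pow]
    apply pow_le_pow_left₀ (by linarith)
    linarith
  have h6 : 0 ≤ (1 + Real.log (n : ℝ)) ^ k := pow_nonneg (by linarith) _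
  have h7 : 0 ≤ 2 ^ k * Real.log (n : ℝ) ^ k := le_trans h6 h5
  calc D * (1 + Real.log n) ^ k ≤ (|D| + 1) * (1 + Real.log n) ^ k := by
        apply mul_le_mul_of_nonneg_right _ h6
        have := le_abs_self D
        linarith
    _ ≤ (|D| + 1) * (2 ^ k * Real.log (n : ℝ) ^ k) := by
        apply mul_le_mul_of_nonneg_left h5
        positivity
    _ = (|D| + 1) * 2 ^ k * Real.log n ^ k := by ring

/-- The right hand side of Theorem E is at most `s² n^ε`, `s` the radical without one prime. -/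
theorem core (C ε : ℝ) (hC : 1 ≤ C) (hε : 0 < ε) :
    ∀ᶠ n : ℕ in atTop, ∀ S S' : Finset ℕ, (∀ p ∈ S ∪ S', 2 ≤ p) → Disjoint S S' →
      ((∏ p ∈ S ∪ S', p : ℕ) : ℝ) ≤ n → ∀ R, R ∉ S' →
      C * (C * S.card) ^ (2 * S.card + 2) * (∏ p ∈ S, Real.log p) ^ 2 *
        (∑ p ∈ S, Real.log p) ^ 2 * (∏ p ∈ S', (p : ℝ)) ^ 2 ≤
      (∏ p ∈ (S ∪ S').erase R, (p : ℝ)) ^ 2 * (n : ℝ) ^ ε := by
  obtain ⟨K, hK1, hK⟩ := prod_card_log_le C (ε / 4) hC (by positivity)
  filter_upwards [ev_poly_log (C * K ^ 2 * (2 * C) ^ 4) 8 (ε / 2) (by positivity),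
    eventually_ge_atTop 1] with n hn hn1 S S' hp hd hle R hR
  have hn0 : (0 : ℝ) < n := by exact_mod_cast hn1
  have hn1' : (1 : ℝ) ≤ n := by exact_mod_cast hn1
  have hL0 : 0 ≤ Real.log (n : ℝ) := Real.log_nonneg hn1'
  set L := Real.log (n : ℝ) with hL
  have hpS : ∀ p ∈ S, 2 ≤ p := fun p h => hp p (Finset.mem_union_left _ h)
  have hpS' : ∀ p ∈ S', 2 ≤ p := fun p h => hp p (Finset.mem_union_right _ h)
  have hge1 : ∀ T : Finset ℕ, (∀ p ∈ T, 2 ≤ p) → 1 ≤ ∏ p ∈ T, (p : ℝ) := by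
    intro T hT
    have h : 0 < ∏ p ∈ T, p := Finset.prod_pos (fun p hp => by have := hT p hp; omega)
    rw [← Nat.cast_prod]
    exact_mod_cast h
  have hsub : ∀ T ⊆ S ∪ S', ∏ p ∈ T, (p : ℝ) ≤ n := by
    intro T hT
    refine le_trans ?_ hle
    rw [← Nat.cast_prod]
    have : ∏ p ∈ T, p ≤ ∏ p ∈ S ∪ S', p :=
      Finset.prod_le_prod_of_subset_of_one_le' hT (fun p h _ => by
        have := hp p h
        omega)
    exact Nat.cast_le.2 this
  -- the set without `R`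
  set T := S.erase R with hT
  have hpT : ∀ p ∈ T, 2 ≤ p := fun p h => hpS p (Finset.mem_of_mem_erase h)
  have hTn : ∏ p ∈ T, (p : ℝ) ≤ n :=
    hsub T ((Finset.erase_subset _ _).trans Finset.subset_union_left)
  set w := T.card with hw
  have hcard : S.card ≤ w + 1 := by
    have := Finset.pred_card_le_card_erase (s := S) (a := R)
    rw [← hT] at this
    omega
  -- size of `w`
  have hw2 : (w : ℝ) ≤ 2 * L := by
    have h1 : (2 : ℝ) ^ w ≤ ∏ p ∈ T, (p : ℝ) := by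
      rw [hw, ← Finset.prod_const]
      apply Finset.prod_le_prod (fun _ _ => by norm_num)
      intro p hp
      exact_mod_cast hpT p hp
    have h2 := Real.log_le_log (by positivity) (h1.trans hTn)
    rw [Real.log_pow] at h2
    have h3 := Real.log_two_gt_d9
    have h4 : (0 : ℝ) ≤ w := Nat.cast_nonneg w
    nlinarith
  have hw1 : C * ((w : ℝ) + 1) ≤ 2 * C * (1 + L) := by nlinarith
  have hCw : 1 ≤ C * ((w : ℝ) + 1) := by
    have h4 : (0 : ℝ) ≤ w := Nat.cast_nonneg w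
    nlinarith
  -- first factor
  have f1 : (C * S.card) ^ (2 * S.card + 2) ≤
      ((C * ((w : ℝ) + 1)) ^ w) ^ 2 * (C * ((w : ℝ) + 1)) ^ 4 := by
    have h1 : C * (S.card : ℝ) ≤ C * ((w : ℝ) + 1) := by
      apply mul_le_mul_of_nonneg_left _ (by linarith)
      exact_mod_cast hcard
    calc (C * S.card) ^ (2 * S.card + 2) ≤ (C * ((w : ℝ) + 1)) ^ (2 * S.card + 2) :=
          pow_le_pow_left₀ (by positivity) h1 _
      _ ≤ (C * ((w : ℝ) + 1)) ^ (w * 2 + 4) := pow_le_pow_right₀ hCw (by omega)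
      _ = ((C * ((w : ℝ) + 1)) ^ w) ^ 2 * (C * ((w : ℝ) + 1)) ^ 4 := by
          rw [pow_add, pow_mul]
  -- second factor
  have hlogT : 0 ≤ ∏ p ∈ T, Real.log p := Finset.prod_nonneg fun p _ => Real.log_natCast_nonneg p
  have hlogS : 0 ≤ ∏ p ∈ S, Real.log p := Finset.prod_nonneg fun p _ => Real.log_natCast_nonneg p
  have f2 : ∏ p ∈ S, Real.log p ≤ (1 + L) * ∏ p ∈ T, Real.log p := by
    by_cases hRS : R ∈ S
    · rw [← Finset.mul_prod_erase S _ hRS]
      apply mul_le_mul_of_nonneg_right _ hlogT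
      have h1 : (R : ℝ) ≤ n := by
        have := hsub {R} (Finset.singleton_subset_iff.2 (Finset.mem_union_left _ hRS))
        rwa [Finset.prod_singleton] at this
      have h2 : (0 : ℝ) < R := by
        have := hpS R hRS
        exact_mod_cast (by omega : 0 < R)
      have := Real.log_le_log h2 h1
      linarith
    · rw [hT, Finset.erase_eq_of_notMem hRS]
      have : 1 * ∏ p ∈ S, Real.log p ≤ (1 + L) * ∏ p ∈ S, Real.log p :=
        mul_le_mul_of_nonneg_right (by linarith) hlogS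
      linarith
  -- third factor
  have f3 : ∑ p ∈ S, Real.log p ≤ 1 + L := by
    have h1 : ∑ p ∈ S, Real.log (p : ℝ) = Real.log (∏ p ∈ S, (p : ℝ)) := by
      rw [Real.log_prod]
      intro p hp
      have := hpS p hp
      exact_mod_cast (by omega : p ≠ 0)
    rw [h1]
    have := Real.log_le_log (by have := hge1 S hpS; linarith) (hsub S Finset.subset_union_left)
    linarith
  have f3' : 0 ≤ ∑ p ∈ S, Real.log (p : ℝ) := Finset.sum_nonneg fun p _ =>
    Real.log_natCast_nonneg p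
  -- the product
  have e1 : ∏ p ∈ (S ∪ S').erase R, (p : ℝ) = (∏ p ∈ T, (p : ℝ)) * ∏ p ∈ S', (p : ℝ) := by
    have : (S ∪ S').erase R = T ∪ S' := by
      rw [Finset.erase_union_distrib, Finset.erase_eq_of_notMem hR]
    rw [this, Finset.prod_union]
    exact Finset.disjoint_of_subset_left (Finset.erase_subset _ _) hd
  set P := ∏ p ∈ T, (p : ℝ) with hP
  set P' := ∏ p ∈ S', (p : ℝ) with hP'
  have hPge : 1 ≤ P := hge1 T hpT
  have f4 := hK T hpT
  rw [← hw, ← hP] at f4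
  have hPe : P ^ (1 + ε / 4) = P * P ^ (ε / 4) := by
    rw [Real.rpow_add (by linarith), Real.rpow_one]
  have hPn : P ^ (ε / 4) ≤ (n : ℝ) ^ (ε / 4) :=
    Real.rpow_le_rpow (by linarith) hTn (by positivity)
  have hne4 : ((n : ℝ) ^ (ε / 4)) ^ 2 = (n : ℝ) ^ (ε / 2) := by
    rw [← Real.rpow_natCast, ← Real.rpow_mul hn0.le]
    congr 1
    push_cast
    ring
  set A := (C * ((w : ℝ) + 1)) ^ w with hA
  have hA0 : 0 ≤ A := by positivity
  set G := ∏ p ∈ T, Real.log (p : ℝ) with hG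
  have f5 : A * G ≤ K * (P * (n : ℝ) ^ (ε / 4)) := by
    refine f4.trans ?_
    rw [hPe]
    apply mul_le_mul_of_nonneg_left _ (by linarith)
    exact mul_le_mul_of_nonneg_left hPn (by linarith)
  have f6 : (A * G) ^ 2 ≤ K ^ 2 * P ^ 2 * (n : ℝ) ^ (ε / 2) := by
    calc (A * G) ^ 2 ≤ (K * (P * (n : ℝ) ^ (ε / 4))) ^ 2 :=
          pow_le_pow_left₀ (mul_nonneg hA0 hlogT) f5 2
      _ = K ^ 2 * P ^ 2 * (n : ℝ) ^ (ε / 2) := by rw [← hne4]; ring
  have f7 : (C * ((w : ℝ) + 1)) ^ 4 ≤ (2 * C) ^ 4 * (1 + L) ^ 4 := by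
    rw [← mul_pow]
    exact pow_le_pow_left₀ (by positivity) hw1 4
  rw [e1]
  have hL1 : 0 ≤ 1 + L := by linarith
  calc C * (C * S.card) ^ (2 * S.card + 2) * (∏ p ∈ S, Real.log (p : ℝ)) ^ 2 *
        (∑ p ∈ S, Real.log (p : ℝ)) ^ 2 * P' ^ 2
      ≤ C * (A ^ 2 * (C * ((w : ℝ) + 1)) ^ 4) * ((1 + L) * G) ^ 2 * (1 + L) ^ 2 * P' ^ 2 := by
        gcongr
    _ = C * (C * ((w : ℝ) + 1)) ^ 4 * (1 + L) ^ 4 * P' ^ 2 * (A * G) ^ 2 := by ring
    _ ≤ C * ((2 * C) ^ 4 * (1 + L) ^ 4) * (1 + L) ^ 4 * P' ^ 2 *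
        (K ^ 2 * P ^ 2 * (n : ℝ) ^ (ε / 2)) := by gcongr
    _ = (P * P') ^ 2 * ((C * K ^ 2 * (2 * C) ^ 4 * (1 + L) ^ 8) * (n : ℝ) ^ (ε / 2)) := by ring
    _ ≤ (P * P') ^ 2 * ((n : ℝ) ^ (ε / 2) * (n : ℝ) ^ (ε / 2)) := by
        have := Real.rpow_nonneg hn0.le (ε / 2)
        gcongr
    _ = (P * P') ^ 2 * (n : ℝ) ^ ε := by
        rw [← Real.rpow_add hn0]
        congr 2
        ring

end Pool.Agent.Lib.Pabc9
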